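import Pool.Agent.Y706.CH.Stm
import Pool.Agent.Y496.BI.Slk

/-!
# Project CH of helper706: the global inequality (job CH-GLOB2, by helper302)
-/

namespace Pool.Agent.Y302.CH

open Pool.Agent.Y706.BI Pool.Agent.W277.UB Pool.Agent.W277.UG Pool.Agent.W277.UH Finset Polynomial
open Pool.Agent.Y706.CH

universe u v w

/-- the final arithmetic -/
lemma glob2_arith (m c ε D d Hr Hi Xg Ls A cm W Λ' LH Tg Ti Tr : ℝ) (hm : m = 2 * c + 2)
    (hc : 0 ≤ c) (hε : 0 < ε) (hD : 0 < D) (hHr : 0 ≤ Hr) (hHi0 : 0 ≤ Hi) (hW : 0 ≤ W)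
    (hD1 : 4 * Λ' / ε ≤ D) (hD2 : 8192 * m ^ 2 * (d + 1) ^ 2 ≤ D)
    (hHi : ε * Hi ≤ 4 / D * Hr) (hcm : cm = 512 * m * (d + 1) ^ 2 / D * Hr)
    (hX : Xg ≤ 16 * m ^ 2 * cm) (hLs0 : 0 ≤ Ls) (hL : Ls ≤ LH) (hH : Hr + Hi ≤ LH)
    (hA : 3 / 2 * m * W ≤ A)
    (htot : (A - c * W) - 12 * m * Hr - 12 * m * Hi - Xg - 4 * ((m - 1) * Ls) ≤ 0)
    (hTg : Tg ≤ 0) (hTi : Ti ≤ Λ' * Hi) (hTr : Tr ≤ W + Hr) :
    Tg + (Ti + Tr) ≤ 20 * LH := by
  have hm0 : 0 < m := by linarith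
  have h1 : m * W ≤ A - c * W := by nlinarith
  have h3 : Λ' * Hi ≤ Hr := by
    rw [div_le_iff₀ hε] at hD1
    have h4 : ε * D * Hi ≤ 4 * Hr := by
      calc ε * D * Hi = D * (ε * Hi) := by ring
        _ ≤ D * (4 / D * Hr) := mul_le_mul_of_nonneg_left hHi hD.le
        _ = 4 * Hr := by field_simp
    have h5 : 4 * Λ' * Hi ≤ D * ε * Hi := mul_le_mul_of_nonneg_right hD1 hHi0
    linarith
  have h6 : 16 * m ^ 2 * cm ≤ m * Hr := by
    rw [hcm]
    have e : 16 * m ^ 2 * (512 * m * (d + 1) ^ 2 / D * Hr) =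
        (8192 * m ^ 2 * (d + 1) ^ 2 / D) * (m * Hr) := by ring
    rw [e]
    have : 8192 * m ^ 2 * (d + 1) ^ 2 / D ≤ 1 := by rw [div_le_one hD]; exact hD2
    calc _ ≤ 1 * (m * Hr) := mul_le_mul_of_nonneg_right this (by positivity)
      _ = m * Hr := one_mul _
  have h7 : m * (Hr + Hi) ≤ m * LH := mul_le_mul_of_nonneg_left hH hm0.le
  have h8 : m * Hr ≤ m * LH := mul_le_mul_of_nonneg_left (by linarith) hm0.le
  have h9 : (m - 1) * Ls ≤ m * LH := by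
    calc (m - 1) * Ls ≤ m * Ls := mul_le_mul_of_nonneg_right (by linarith) hLs0
      _ ≤ _ := mul_le_mul_of_nonneg_left hL hm0.le
  have h10 : m * W ≤ m * (17 * LH) := by
    have : m * (17 * LH) = 17 * (m * LH) := by ring
    rw [this]
    linarith
  have h11 : W ≤ 17 * LH := le_of_mul_le_mul_left h10 hm0
  linarith

set_option maxHeartbeats 8000000 in
theorem t_GLOB2 : S_GLOB2.{u, v, w} := by
  have hslk : S_SLK.{u, v, w} := Pool.Agent.Y496.BI.t_SLK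
  intro d Λ hd hΛ1 c ε Λ' hε hΛ'
  classical
  have hdR : (2 : ℝ) ≤ d := by exact_mod_cast hd
  obtain ⟨m, hmdef⟩ : ∃ m : ℕ, m = 2 * c + 2 := ⟨_, rfl⟩
  have hm0 : 0 < m := by omega
  have hmR : (0 : ℝ) < m := by exact_mod_cast hm0
  obtain ⟨nn, hnn⟩ := pow_unbounded_of_one_lt (4 * Λ' / ε +
    8192 * (m : ℝ) ^ 2 * ((d : ℝ) + 1) ^ 2) (show (1 : ℝ) < d by linarith)
  refine ⟨d ^ (2 * nn) + q₀ d + 1, m, ?_⟩
  intro k K _ _ _ _ Q S P a ρ L hN hS1 hS2 hS3 hwa hwρ hind lam hlamle hloc H hlossH hRH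
  obtain ⟨D, hD⟩ : ∃ D : ℝ, D = (d : ℝ) ^ nn := ⟨_, rfl⟩
  have hD0 : 0 < D := by rw [hD]; positivity
  rw [← hD] at hnn
  have hD1 : 4 * Λ' / ε ≤ D := by
    have : 0 ≤ 8192 * (m : ℝ) ^ 2 * ((d : ℝ) + 1) ^ 2 := by positivity
    linarith
  have hD2 : 8192 * (m : ℝ) ^ 2 * ((d : ℝ) + 1) ^ 2 ≤ D := by
    have : 0 ≤ 4 * Λ' / ε := by positivity
    linarith
  have hq : q₀ d < P.card := by omega
  have hnnP : (d : ℝ) ^ (2 * nn) ≤ P.card := by
    have : d ^ (2 * nn) ≤ P.card := by omega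
    exact_mod_cast this
  obtain ⟨N, hNdef⟩ : ∃ N : ℝ, N = (P.card : ℝ) := ⟨_, rfl⟩
  have hPpos : 0 < P.card := by omega
  have hN0 : 0 < N := by rw [hNdef]; exact_mod_cast hPpos
  have hPne : P.Nonempty := Finset.card_pos.mp hPpos
  have hwt : ∀ v, (0 : ℝ) ≤ Q.wt v := fun v => by exact_mod_cast Q.wt_nonneg v
  have hRn : ∀ v, (0 : ℝ) ≤ (L v).R := fun v => Nat.cast_nonneg _
  -- outside S
  have hGG0 : ∀ v, v ∉ S → ∀ x ∈ P, ∀ y ∈ P, x ≠ y → GG Q v (a v) (ρ v) x y = 0 := by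
    intro v hv x hx y hy hxy
    unfold GG
    rw [hS1 v hv x hx y hy hxy, (hS2 v hv).1 x hx, (hS2 v hv).1 y hy, (hS2 v hv).2]
    simp
  have hR0 : ∀ v, v ∉ S → (L v).R = 0 := fun v hv => R_zero hd (L v) hq (hGG0 v hv)
  -- product formula for the pairs
  have hpair : ∀ x ∈ P, ∀ y ∈ P, x ≠ y → ∑ v ∈ S, (Q.wt v : ℝ) * GG Q v (a v) (ρ v) x y = 0 := by
    intro x hx y hy hxy
    have h1 := prod_zero Q S (x - y) (sub_ne_zero.mpr hxy) fun v hv => hS1 v hv x hx y hy hxy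
    have h2 : ∑ v ∈ S, (Q.wt v : ℝ) * (Q.ord v (x - y) : ℝ) = 0 := by exact_mod_cast h1
    have h3 : ∀ v, (Q.wt v : ℝ) * GG Q v (a v) (ρ v) x y = (Q.wt v : ℝ) * (Q.ord v (x - y) : ℝ) -
        (Q.wt v : ℝ) * a v x - (Q.wt v : ℝ) * a v y + (Q.wt v : ℝ) * ρ v := by
      intro v
      unfold GG
      ring
    simp_rw [h3]
    rw [Finset.sum_add_distrib, Finset.sum_sub_distrib, Finset.sum_sub_distrib, h2, hwa x hx,
      hwa y hy, hwρ]
    ring
  -- the energies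
  obtain ⟨ex, hex⟩ : ∃ ex : Q.Pl → ℝ, ex = fun v =>
    ∑ z ∈ P, ∑ z' ∈ P, if z = z' then 0 else GG Q v (a v) (ρ v) z z' := ⟨_, rfl⟩
  have hexsum : ∑ v ∈ S, (Q.wt v : ℝ) * ex v = 0 := by
    rw [hex]
    simp only [Finset.mul_sum]
    rw [Finset.sum_comm]
    apply Finset.sum_eq_zero
    intro x hx
    rw [Finset.sum_comm]
    apply Finset.sum_eq_zero
    intro y hy
    by_cases hxy : x = y
    · simp [hxy]
    · simp only [if_neg hxy]
      exact hpair x hx y hy hxy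
  -- classification
  obtain ⟨irr, hirr⟩ : ∃ irr : Q.Pl → Prop, irr = fun v => ε * (L v).R * (P.card : ℝ) ^ 2 ≤ ex v :=
    ⟨_, rfl⟩
  obtain ⟨Sg, hSg⟩ : ∃ Sg, Sg = S.filter fun v => (L v).R = 0 := ⟨_, rfl⟩
  obtain ⟨Si, hSi⟩ : ∃ Si, Si = S.filter fun v => ¬ (L v).R = 0 ∧ irr v := ⟨_, rfl⟩
  obtain ⟨Sr, hSr⟩ : ∃ Sr, Sr = S.filter fun v => ¬ (L v).R = 0 ∧ ¬ irr v := ⟨_, rfl⟩
  have hsplit : ∀ g : Q.Pl → ℝ, ∑ v ∈ S, g v = ∑ v ∈ Sg, g v + (∑ v ∈ Si, g v + ∑ v ∈ Sr, g v) := by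
    intro g
    rw [← Finset.sum_filter_add_sum_filter_not S (fun v => (L v).R = 0) g, ← hSg]
    congr 1
    rw [← Finset.sum_filter_add_sum_filter_not (S.filter fun v => ¬ (L v).R = 0) irr g,
      Finset.filter_filter, Finset.filter_filter, ← hSi, ← hSr]
  obtain ⟨Hi, hHi⟩ : ∃ Hi : ℝ, Hi = ∑ v ∈ Si, (Q.wt v : ℝ) * (L v).R := ⟨_, rfl⟩
  obtain ⟨Hr, hHr⟩ : ∃ Hr : ℝ, Hr = ∑ v ∈ Sr, (Q.wt v : ℝ) * (L v).R := ⟨_, rfl⟩
  have hHi0 : 0 ≤ Hi := by
    rw [hHi]; exact Finset.sum_nonneg fun v _ => mul_nonneg (hwt v) (hRn v)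
  have hHr0 : 0 ≤ Hr := by
    rw [hHr]; exact Finset.sum_nonneg fun v _ => mul_nonneg (hwt v) (hRn v)
  have hH : ∑ v ∈ S, (Q.wt v : ℝ) * (L v).R = Hr + Hi := by
    rw [hsplit]
    have h1 : ∑ v ∈ Sg, (Q.wt v : ℝ) * (L v).R = 0 := by
      apply Finset.sum_eq_zero
      intro v hv
      rw [hSg] at hv
      rw [(Finset.mem_filter.mp hv).2, Nat.cast_zero, mul_zero]
    rw [h1, ← hHi, ← hHr]
    ring
  -- the cost
  obtain ⟨cst, hcst⟩ : ∃ cst : K → K → ℝ, cst = fun x y =>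
    ∑ v ∈ Sg, (Q.wt v : ℝ) * (if x = y then 0 else ((L v).o x y : ℝ)) := ⟨_, rfl⟩
  have hc0 : ∀ x y, 0 ≤ cst x y := by
    intro x y
    rw [hcst]
    apply Finset.sum_nonneg
    intro v _
    apply mul_nonneg (hwt v)
    split_ifs
    · exact le_rfl
    · exact Nat.cast_nonneg _
  obtain ⟨Eg, hEg⟩ : ∃ Eg : ℝ, Eg = ∑ v ∈ Sg, (Q.wt v : ℝ) * ex v := ⟨_, rfl⟩
  have hEgc : Eg = ∑ x ∈ P, ∑ y ∈ P, cst x y := by
    rw [hEg, hex, hcst]
    simp only [Finset.mul_sum]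
    rw [Finset.sum_comm]
    apply Finset.sum_congr rfl
    intro x hx
    rw [Finset.sum_comm]
    apply Finset.sum_congr rfl
    intro y hy
    apply Finset.sum_congr rfl
    intro v hv
    rw [hSg] at hv
    by_cases hxy : x = y
    · simp [hxy]
    · simp only [if_neg hxy]
      rw [(L v).GG_good (Finset.mem_filter.mp hv).2 hx hy hxy]
  have hEg0 : 0 ≤ Eg := by
    rw [hEgc]
    exact Finset.sum_nonneg fun x _ => Finset.sum_nonneg fun y _ => hc0 x y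
  have hener : Eg + (ε * N ^ 2 * Hi - 4 * N ^ 2 / D * Hr) ≤ 0 := by
    have h1 := hexsum
    rw [hsplit, ← hEg] at h1
    have h2 : ε * N ^ 2 * Hi ≤ ∑ v ∈ Si, (Q.wt v : ℝ) * ex v := by
      rw [hHi, Finset.mul_sum]
      apply Finset.sum_le_sum
      intro v hv
      rw [hSi] at hv
      have h3 : irr v := (Finset.mem_filter.mp hv).2.2
      rw [hirr] at h3
      have h4 := mul_le_mul_of_nonneg_left h3 (hwt v)
      rw [← hNdef] at h4
      refine le_trans (le_of_eq ?_) h4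
      ring
    have h3 : -(4 * N ^ 2 / D * Hr) ≤ ∑ v ∈ Sr, (Q.wt v : ℝ) * ex v := by
      rw [hHr, Finset.mul_sum, ← Finset.sum_neg_distrib]
      apply Finset.sum_le_sum
      intro v hv
      have h4 := (L v).hE nn hnnP
      have h5 : -(4 * (P.card : ℝ) ^ 2 * (L v).R / (d : ℝ) ^ nn) ≤ ex v := by
        rw [hex]; exact h4
      have h6 := mul_le_mul_of_nonneg_left h5 (hwt v)
      rw [← hNdef, ← hD] at h6
      refine le_trans (le_of_eq ?_) h6
      ring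
    linarith
  have hHiHr : ε * Hi ≤ 4 / D * Hr := by
    have h1 : ε * N ^ 2 * Hi ≤ 4 * N ^ 2 / D * Hr := by linarith
    have h2 : N ^ 2 * (ε * Hi) ≤ N ^ 2 * (4 / D * Hr) := by
      calc N ^ 2 * (ε * Hi) = ε * N ^ 2 * Hi := by ring
        _ ≤ 4 * N ^ 2 / D * Hr := h1
        _ = N ^ 2 * (4 / D * Hr) := by ring
    exact le_of_mul_le_mul_left h2 (by positivity)
  obtain ⟨W, hW⟩ : ∃ W : ℝ, W = 4 / D * Hr := ⟨_, rfl⟩
  have hW0 : 0 ≤ W := by rw [hW]; positivity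
  have hcsum : ∑ x ∈ P, ∑ y ∈ P, cst x y ≤ W * (P.card : ℝ) ^ 2 := by
    rw [← hEgc, ← hNdef, hW]
    have h1 : 0 ≤ ε * N ^ 2 * Hi := by positivity
    have h2 : 4 / D * Hr * N ^ 2 = 4 * N ^ 2 / D * Hr := by ring
    rw [h2]
    linarith
  -- the exceptional sets at the regular places
  have hexB : ∀ v, ∃ B : Finset K, v ∈ Sr →
      (B ⊆ P ∧ (B.card : ℝ) ≤ 1 / (32 * ((d : ℝ) + 1)) * P.card ∧ ∃ χ : K → Fin c,
        ∀ z ∈ P, z ∉ B → ∀ z' ∈ P, z' ∉ B → z ≠ z' → χ z = χ z' →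
          lam v ≤ GG Q v (a v) (ρ v) z z') := by
    intro v
    by_cases hv : v ∈ Sr
    · have hv' := hv
      rw [hSr] at hv'
      obtain ⟨_, hv1, hv2⟩ := Finset.mem_filter.mp hv'
      rw [hirr, hex] at hv2
      obtain ⟨χ, B, hB1, hB2, hB3⟩ := (hloc v (Nat.one_le_iff_ne_zero.mpr hv1)).resolve_left hv2
      exact ⟨B, fun _ => ⟨hB1, hB2, χ, hB3⟩⟩
    · exact ⟨∅, fun h => absurd h hv⟩
  choose Bv hBv using hexB
  obtain ⟨om, hom⟩ : ∃ om : Q.Pl → ℝ, om = fun v =>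
    (Q.wt v : ℝ) * (max (lam v) (L v).R - (L v).R) := ⟨_, rfl⟩
  have hom0 : ∀ v, 0 ≤ om v := by
    intro v
    rw [hom]
    exact mul_nonneg (hwt v) (sub_nonneg.mpr (le_max_right _ _))
  obtain ⟨Wt, hWt⟩ : ∃ Wt : ℝ, Wt = ∑ v ∈ Sr, om v := ⟨_, rfl⟩
  have hWt0 : 0 ≤ Wt := by
    rw [hWt]; exact Finset.sum_nonneg fun v _ => hom0 v
  obtain ⟨g₁, hg₁⟩ : ∃ g₁ : K → ℝ, g₁ = fun x =>
    ∑ v ∈ Sr, if x ∈ Bv v then om v else 0 := ⟨_, rfl⟩
  have hg₁0 : ∀ x, 0 ≤ g₁ x := by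
    intro x
    rw [hg₁]
    apply Finset.sum_nonneg
    intro v _
    split_ifs
    · exact hom0 v
    · exact le_rfl
  obtain ⟨δ, hδ⟩ : ∃ δ : ℝ, δ = 1 / (2 * ((d : ℝ) + 1)) := ⟨_, rfl⟩
  have hδ0 : 0 < δ := by rw [hδ]; positivity
  have hδ1 : δ ≤ 1 := by
    rw [hδ, div_le_one (by positivity)]
    linarith
  obtain ⟨E₁, hE₁⟩ : ∃ E₁, E₁ = P.filter fun x => Wt / 4 < g₁ x := ⟨_, rfl⟩
  have hE₁c : (E₁.card : ℝ) ≤ δ * P.card / 4 := by
    rw [hE₁]
    apply markov P g₁ hg₁0 (Wt / 4) (δ * P.card / 4) (by positivity) (by positivity)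
    rw [← hNdef]
    have h1 : ∀ v ∈ Sr, ∑ x ∈ P, (if x ∈ Bv v then om v else 0) ≤
        (N / (32 * ((d : ℝ) + 1))) * om v := by
      intro v hv
      rw [← Finset.sum_filter, Finset.sum_const, nsmul_eq_mul]
      apply mul_le_mul_of_nonneg_right _ (hom0 v)
      have h2 : ((P.filter fun x => x ∈ Bv v).card : ℝ) ≤ (Bv v).card := by
        have : (P.filter fun x => x ∈ Bv v) ⊆ Bv v := fun x hx => (Finset.mem_filter.mp hx).2
        exact_mod_cast Finset.card_le_card this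
      refine h2.trans ?_
      have h3 := (hBv v hv).2.1
      rw [← hNdef] at h3
      refine h3.trans (le_of_eq ?_)
      ring
    calc ∑ x ∈ P, g₁ x = ∑ v ∈ Sr, ∑ x ∈ P, (if x ∈ Bv v then om v else 0) := by
          rw [hg₁, Finset.sum_comm]
      _ ≤ ∑ v ∈ Sr, (N / (32 * ((d : ℝ) + 1))) * om v := Finset.sum_le_sum h1
      _ = (N / (32 * ((d : ℝ) + 1))) * Wt := by rw [← Finset.mul_sum, ← hWt]
      _ = Wt / 4 * (δ * N / 4) := by
          rw [hδ]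
          field_simp
          ring
      _ ≤ _ := le_rfl
  -- the selection
  obtain ⟨z, hzP, hzE, hzI, hzc⟩ := selection2 P hPne (2 * m) (by omega) (Phi Q m) cst hc0 W hW0
    hcsum δ hδ0 hδ1 (by
      intro b h0
      have h1 := congrFun h0 ⟨0, by omega⟩
      simp [Phi, mu] at h1)
    (fun b hb F hF => by
      rw [hδ]
      exact hind m hm0 le_rfl b hb F hF) E₁ hE₁c
  have hzinj : Function.Injective z := by
    intro i j hij
    apply hzI.injective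
    simp only [hij]
  obtain ⟨b, hb⟩ : ∃ b : Fin (2 * m), b = ⟨0, by omega⟩ := ⟨_, rfl⟩
  have hdet : cdet Q m z b ≠ 0 := by rw [hb]; exact cdet_ne Q m z _ hzI
  have hzne : ∀ i j, i ≠ j → z i ≠ z j := fun i j hij h => hij (hzinj h)
  -- the total slack is nonpositive
  have htot : ∑ v ∈ S, (Q.wt v : ℝ) * Sl Q v (a v) (ρ v) m z b ≤ 0 := by
    have h1 := Q.prod_formula (cdet Q m z b) hdet S (by
      intro v hv
      have h2 := (L v).slack_good (hR0 v hv) m hm0 z hzP hzinj b hdet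
      have h3 : ∀ i j : Fin (2 * m), i ≠ j → GG Q v (a v) (ρ v) (z i) (z j) = 0 :=
        fun i j hij => hGG0 v hv _ (hzP i) _ (hzP j) fun h => hij (hzinj h)
      have h4 : (∑ i : Fin (2 * m), ∑ j : Fin (2 * m),
          if i.1 < j.1 then GG Q v (a v) (ρ v) (z i) (z j) else 0) = 0 := by
        apply Finset.sum_eq_zero
        intro i _
        apply Finset.sum_eq_zero
        intro j _
        split_ifs with h
        · exact h3 i j fun h' => by rw [h'] at h; exact lt_irrefl _ h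
        · rfl
      have h5 : (∑ i : Fin (2 * m), ∑ j : Fin (2 * m),
          if i = j then 0 else GG Q v (a v) (ρ v) (z i) (z j)) = 0 := by
        apply Finset.sum_eq_zero
        intro i _
        apply Finset.sum_eq_zero
        intro j _
        split_ifs with h
        · rfl
        · exact h3 i j h
      have h6 : Q.loss v = 0 := Q.loss_supp v fun h => hv (hS3 h)
      have h7 : ∑ i, a v (z i) = 0 := Finset.sum_eq_zero fun i _ => (hS2 v hv).1 _ (hzP i)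
      unfold Sl at h2
      rw [h4, h5, h6, h7, (hS2 v hv).2] at h2
      simp only [Int.cast_zero, mul_zero, zero_mul, neg_zero, sub_zero, add_zero] at h2
      have h8 : (0 : ℝ) ≤ (Q.ord v (cdet Q m z b) : ℝ) := by linarith
      exact_mod_cast h8)
    have h1' : ∑ v ∈ S, (Q.wt v : ℝ) * (Q.ord v (cdet Q m z b) : ℝ) ≤ 0 := by exact_mod_cast h1
    have h2 : ∑ v ∈ S, (Q.wt v : ℝ) * (∑ i, a v (z i)) = 0 := by
      simp only [Finset.mul_sum]
      rw [Finset.sum_comm]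
      exact Finset.sum_eq_zero fun i _ => hwa _ (hzP i)
    have h3 : ∑ v ∈ S, (Q.wt v : ℝ) * (∑ i : Fin (2 * m), ∑ j : Fin (2 * m),
          if i = j then 0 else GG Q v (a v) (ρ v) (z i) (z j)) = 0 := by
      simp only [Finset.mul_sum]
      rw [Finset.sum_comm]
      apply Finset.sum_eq_zero
      intro i _
      rw [Finset.sum_comm]
      apply Finset.sum_eq_zero
      intro j _
      by_cases hij : i = j
      · simp [hij]
      · simp only [if_neg hij]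
        exact hpair _ (hzP i) _ (hzP j) fun h => hij (hzinj h)
    have h4 : ∑ v ∈ S, (Q.wt v : ℝ) * Sl Q v (a v) (ρ v) m z b =
        4 * ∑ v ∈ S, (Q.wt v : ℝ) * (Q.ord v (cdet Q m z b) : ℝ) -
        4 * m * ∑ v ∈ S, (Q.wt v : ℝ) * (∑ i, a v (z i)) +
        4 * (m : ℝ) ^ 2 * ∑ v ∈ S, (Q.wt v : ℝ) * ρ v -
        ∑ v ∈ S, (Q.wt v : ℝ) * (∑ i : Fin (2 * m), ∑ j : Fin (2 * m),
          if i = j then 0 else GG Q v (a v) (ρ v) (z i) (z j)) := by
      rw [Finset.mul_sum, Finset.mul_sum, Finset.mul_sum, ← Finset.sum_sub_distrib,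
        ← Finset.sum_add_distrib, ← Finset.sum_sub_distrib]
      apply Finset.sum_congr rfl
      intro v _
      unfold Sl
      ring
    rw [h4, h2, h3, hwρ]
    linarith
  -- the local lower bounds
  obtain ⟨Gs, hGs⟩ : ∃ Gs : Q.Pl → Finset (Fin (2 * m)), Gs = fun v =>
    Finset.univ.filter fun i => z i ∉ Bv v := ⟨_, rfl⟩
  obtain ⟨pg, hpg⟩ : ∃ pg : Q.Pl → ℝ, pg = fun v => ∑ i : Fin (2 * m), ∑ j : Fin (2 * m),
    if i.1 < j.1 then GG Q v (a v) (ρ v) (z i) (z j) else 0 := ⟨_, rfl⟩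
  have hgood : ∀ v ∈ Sg, -(4 * pg v) - 4 * Q.loss v * ((m : ℝ) - 1) ≤ Sl Q v (a v) (ρ v) m z b := by
    intro v hv
    rw [hSg] at hv
    rw [hpg]
    exact (L v).slack_good (Finset.mem_filter.mp hv).2 m hm0 z hzP hzinj b hdet
  have hRone : ∀ v, ¬ (L v).R = 0 → (1 : ℝ) ≤ (L v).R := fun v hv => by
    exact_mod_cast Nat.one_le_iff_ne_zero.mpr hv
  have hirrb : ∀ v ∈ Si, -(12 * m * (L v).R) - 4 * Q.loss v * ((m : ℝ) - 1) ≤
      Sl Q v (a v) (ρ v) m z b := by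
    intro v hv
    rw [hSi] at hv
    have hR1 := hRone v (Finset.mem_filter.mp hv).2.1
    have h1 := hslk k K Q v d P (a v) (ρ v) (L v) hd m hm0 z hzP hzinj b hdet 1 (fun _ => 0) ∅
      ((L v).R : ℝ) le_rfl (by simp)
    have h2 : (m : ℝ) * 1 ≤ m * (L v).R := mul_le_mul_of_nonneg_left hR1 hmR.le
    simp only [Finset.card_empty, Nat.cast_zero, Nat.cast_one, sub_self, mul_zero] at h1
    linarith
  have hregb : ∀ v ∈ Sr, ((Gs v).card : ℝ) * (max (lam v) (L v).R - (L v).R) -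
      c * (max (lam v) (L v).R - (L v).R) -
      12 * m * (L v).R - 4 * Q.loss v * ((m : ℝ) - 1) ≤ Sl Q v (a v) (ρ v) m z b := by
    intro v hv
    obtain ⟨_, _, χ, hχ⟩ := hBv v hv
    rw [hSr] at hv
    have hR1 := hRone v (Finset.mem_filter.mp hv).2.1
    have h2 : (m : ℝ) * 1 ≤ m * (L v).R := mul_le_mul_of_nonneg_left hR1 hmR.le
    rcases le_total (lam v) ((L v).R : ℝ) with hle | hle
    · have h1 := hslk k K Q v d P (a v) (ρ v) (L v) hd m hm0 z hzP hzinj b hdet 1 (fun _ => 0) ∅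
        ((L v).R : ℝ) le_rfl (by simp)
      simp only [Finset.card_empty, Nat.cast_zero, Nat.cast_one, sub_self, mul_zero] at h1
      rw [max_eq_right hle, sub_self, mul_zero, mul_zero]
      linarith
    · have h1 := hslk k K Q v d P (a v) (ρ v) (L v) hd m hm0 z hzP hzinj b hdet c
        (fun i => χ (z i)) (Gs v) (lam v) hle (by
          intro i hi j hj hij hcc
          rw [hGs] at hi hj
          exact hχ _ (hzP i) (Finset.mem_filter.mp hi).2 _ (hzP j) (Finset.mem_filter.mp hj).2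
            (hzne i j hij) hcc)
      rw [max_eq_left hle]
      have h3 : (((Gs v).card : ℝ) - c) * (lam v - (L v).R) =
        ((Gs v).card : ℝ) * (lam v - (L v).R) - c * (lam v - (L v).R) := by ring
      rw [h3] at h1
      linarith
  -- the sums
  obtain ⟨Ls, hLs⟩ : ∃ Ls : ℝ, Ls = ∑ v ∈ S, (Q.wt v : ℝ) * Q.loss v := ⟨_, rfl⟩
  obtain ⟨Xg, hXg⟩ : ∃ Xg : ℝ, Xg = 4 * ∑ v ∈ Sg, (Q.wt v : ℝ) * pg v := ⟨_, rfl⟩
  obtain ⟨A, hA⟩ : ∃ A : ℝ, A = ∑ v ∈ Sr, ((Gs v).card : ℝ) * om v := ⟨_, rfl⟩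
  have hlossT : Ls ≤ Q.lossT := by
    have h1 : ∑ v ∈ S, Q.wt v * Q.loss v = ∑ v ∈ Q.lossS, Q.wt v * Q.loss v := by
      symm
      apply Finset.sum_subset hS3
      intro v _ hv
      rw [Q.loss_supp v hv, mul_zero]
    have h2 := Q.loss_sum
    rw [← h1] at h2
    rw [hLs]
    exact_mod_cast h2
  have hLs0 : 0 ≤ Ls := by
    rw [hLs]
    exact Finset.sum_nonneg fun v _ => mul_nonneg (hwt v) (by exact_mod_cast Q.loss_nonneg v)
  have hbig : (A - c * Wt) - 12 * m * Hr - 12 * m * Hi - Xg -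
      4 * (((m : ℝ) - 1) * Ls) ≤ 0 := by
    rw [hsplit] at htot
    have e1 : ∑ v ∈ Sg, (Q.wt v : ℝ) * (-(4 * pg v) - 4 * Q.loss v * ((m : ℝ) - 1)) ≤
        ∑ v ∈ Sg, (Q.wt v : ℝ) * Sl Q v (a v) (ρ v) m z b :=
      Finset.sum_le_sum fun v hv => mul_le_mul_of_nonneg_left (hgood v hv) (hwt v)
    have e2 : ∑ v ∈ Si, (Q.wt v : ℝ) * (-(12 * m * (L v).R) - 4 * Q.loss v * ((m : ℝ) - 1)) ≤
        ∑ v ∈ Si, (Q.wt v : ℝ) * Sl Q v (a v) (ρ v) m z b :=
      Finset.sum_le_sum fun v hv => mul_le_mul_of_nonneg_left (hirrb v hv) (hwt v)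
    have e3 : ∑ v ∈ Sr, (Q.wt v : ℝ) * (((Gs v).card : ℝ) * (max (lam v) (L v).R - (L v).R) -
        c * (max (lam v) (L v).R - (L v).R) - 12 * m * (L v).R -
        4 * Q.loss v * ((m : ℝ) - 1)) ≤
        ∑ v ∈ Sr, (Q.wt v : ℝ) * Sl Q v (a v) (ρ v) m z b :=
      Finset.sum_le_sum fun v hv => mul_le_mul_of_nonneg_left (hregb v hv) (hwt v)
    have f1 : ∑ v ∈ Sg, (Q.wt v : ℝ) * (-(4 * pg v) - 4 * Q.loss v * ((m : ℝ) - 1)) =
        -Xg - 4 * ((m : ℝ) - 1) * ∑ v ∈ Sg, (Q.wt v : ℝ) * Q.loss v := by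
      rw [hXg, Finset.mul_sum, Finset.mul_sum, ← Finset.sum_neg_distrib, ← Finset.sum_sub_distrib]
      apply Finset.sum_congr rfl
      intro v _
      ring
    have f2 : ∑ v ∈ Si, (Q.wt v : ℝ) * (-(12 * m * (L v).R) - 4 * Q.loss v * ((m : ℝ) - 1)) =
        -(12 * m * Hi) - 4 * ((m : ℝ) - 1) * ∑ v ∈ Si, (Q.wt v : ℝ) * Q.loss v := by
      rw [hHi, Finset.mul_sum, Finset.mul_sum, ← Finset.sum_neg_distrib, ← Finset.sum_sub_distrib]
      apply Finset.sum_congr rfl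
      intro v _
      ring
    have f3 : ∑ v ∈ Sr, (Q.wt v : ℝ) * (((Gs v).card : ℝ) * (max (lam v) (L v).R - (L v).R) -
        c * (max (lam v) (L v).R - (L v).R) - 12 * m * (L v).R -
        4 * Q.loss v * ((m : ℝ) - 1)) =
        (A - c * Wt) - 12 * m * Hr -
          4 * ((m : ℝ) - 1) * ∑ v ∈ Sr, (Q.wt v : ℝ) * Q.loss v := by
      rw [hA, hHr, hWt, Finset.mul_sum, Finset.mul_sum, Finset.mul_sum,
        ← Finset.sum_sub_distrib, ← Finset.sum_sub_distrib, ← Finset.sum_sub_distrib]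
      apply Finset.sum_congr rfl
      intro v _
      rw [hom]
      ring
    have f4 : Ls = ∑ v ∈ Sg, (Q.wt v : ℝ) * Q.loss v + (∑ v ∈ Si, (Q.wt v : ℝ) * Q.loss v +
        ∑ v ∈ Sr, (Q.wt v : ℝ) * Q.loss v) := by
      rw [hLs, hsplit]
    rw [f1] at e1
    rw [f2] at e2
    rw [f3] at e3
    rw [f4]
    nlinarith
  have hA2 : 3 / 2 * (m : ℝ) * Wt ≤ A := by
    have h1 : A = ∑ i, (Wt - g₁ (z i)) := by
      have h2 : ∀ i, Wt - g₁ (z i) =
          ∑ v ∈ Sr, if z i ∉ Bv v then om v else 0 := by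
        intro i
        rw [hWt, hg₁, ← Finset.sum_sub_distrib]
        apply Finset.sum_congr rfl
        intro v _
        by_cases h : z i ∈ Bv v
        · rw [if_pos h, if_neg (not_not.mpr h), sub_self]
        · rw [if_neg h, if_pos h, sub_zero]
      simp_rw [h2]
      rw [Finset.sum_comm, hA]
      apply Finset.sum_congr rfl
      intro v _
      rw [← Finset.sum_filter, Finset.sum_const, nsmul_eq_mul, hGs]
    rw [h1]
    calc 3 / 2 * (m : ℝ) * Wt = ∑ _i : Fin (2 * m), (3 / 4 * Wt) := by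
          rw [Finset.sum_const, Finset.card_univ, Fintype.card_fin, nsmul_eq_mul]
          push_cast
          ring
      _ ≤ _ := by
          apply Finset.sum_le_sum
          intro i _
          have h2 : ¬ Wt / 4 < g₁ (z i) := fun h =>
            hzE i (by rw [hE₁]; exact Finset.mem_filter.mpr ⟨hzP i, h⟩)
          push Not at h2
          linarith
  obtain ⟨cm, hcm⟩ : ∃ cm : ℝ, cm = 16 * ((2 * m : ℕ) : ℝ) * W / δ ^ 2 := ⟨_, rfl⟩
  have hcm0 : 0 ≤ cm := by rw [hcm]; positivity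
  have hcm2 : cm = 512 * m * ((d : ℝ) + 1) ^ 2 / D * Hr := by
    rw [hcm, hW, hδ]
    push_cast
    field_simp
    ring
  have hXle : Xg ≤ 16 * (m : ℝ) ^ 2 * cm := by
    have e2 : ∑ v ∈ Sg, (Q.wt v : ℝ) * pg v =
        ∑ i : Fin (2 * m), ∑ j : Fin (2 * m), if i.1 < j.1 then cst (z i) (z j) else 0 := by
      rw [hpg]
      simp only [Finset.mul_sum]
      rw [Finset.sum_comm]
      apply Finset.sum_congr rfl
      intro i _
      rw [Finset.sum_comm]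
      apply Finset.sum_congr rfl
      intro j _
      by_cases h : i.1 < j.1
      · simp only [if_pos h]
        rw [hcst]
        apply Finset.sum_congr rfl
        intro v hv
        rw [hSg] at hv
        have hij : i ≠ j := by
          rintro rfl
          exact lt_irrefl _ h
        rw [if_neg (hzne i j hij), (L v).GG_good (Finset.mem_filter.mp hv).2 (hzP i) (hzP j)
          (hzne i j hij)]
      · simp [h]
    have e3 : (∑ i : Fin (2 * m), ∑ j : Fin (2 * m), if i.1 < j.1 then cst (z i) (z j) else 0) ≤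
        (2 * m) ^ 2 * cm := by
      calc _ ≤ ∑ _i : Fin (2 * m), ∑ _j : Fin (2 * m), cm := by
            apply Finset.sum_le_sum
            intro i _
            apply Finset.sum_le_sum
            intro j _
            split_ifs with h
            · rw [hcm]; exact hzc i j h
            · exact hcm0
        _ = _ := by
            simp only [Finset.sum_const, Finset.card_univ, Fintype.card_fin, nsmul_eq_mul]
            push_cast
            ring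
    rw [hXg, e2]
    calc 4 * (∑ i : Fin (2 * m), ∑ j : Fin (2 * m), if i.1 < j.1 then cst (z i) (z j) else 0) ≤
        4 * ((2 * m) ^ 2 * cm) := by linarith
      _ = 16 * (m : ℝ) ^ 2 * cm := by ring
  have hTg : ∑ v ∈ Sg, (Q.wt v : ℝ) * lam v ≤ 0 := by
    apply Finset.sum_nonpos
    intro v hv
    rw [hSg] at hv
    have h1 := hlamle v
    rw [(Finset.mem_filter.mp hv).2, Nat.cast_zero, mul_zero] at h1
    exact mul_nonpos_of_nonneg_of_nonpos (hwt v) h1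
  have hTi : ∑ v ∈ Si, (Q.wt v : ℝ) * lam v ≤ Λ' * Hi := by
    rw [hHi, Finset.mul_sum]
    apply Finset.sum_le_sum
    intro v _
    have h1 := mul_le_mul_of_nonneg_left (hlamle v) (hwt v)
    refine h1.trans (le_of_eq ?_)
    ring
  have hTr : ∑ v ∈ Sr, (Q.wt v : ℝ) * lam v ≤ Wt + Hr := by
    rw [hWt, hHr, ← Finset.sum_add_distrib]
    apply Finset.sum_le_sum
    intro v _
    rw [hom]
    have h1 := mul_le_mul_of_nonneg_left (le_max_left (lam v) ((L v).R : ℝ)) (hwt v)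
    refine h1.trans (le_of_eq ?_)
    ring
  rw [hsplit]
  have hfin := glob2_arith m c ε D d Hr Hi Xg Ls A cm Wt Λ' (Λ * H)
    (∑ v ∈ Sg, (Q.wt v : ℝ) * lam v) (∑ v ∈ Si, (Q.wt v : ℝ) * lam v)
    (∑ v ∈ Sr, (Q.wt v : ℝ) * lam v) (by rw [hmdef]; push_cast; ring)
    (Nat.cast_nonneg _) hε hD0 hHr0 hHi0 hWt0 hD1 hD2 hHiHr hcm2 hXle hLs0
    (hlossT.trans hlossH) (by rw [← hH]; exact hRH) hA2 hbig hTg hTi hTr
  refine hfin.trans (le_of_eq ?_)
  ring

end Pool.Agent.Y302.CH
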