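import Pool.Agent.Y706.CH.Stm
import Pool.Agent.W277.UH.G1

/-!
# Project CH: the local theorem with the minimal model
-/

namespace Pool.Agent.Y302.CH.LDX

open Pool.Agent.W277.UB Pool.Agent.W277.UG Pool.Agent.W277.UH Pool.Agent.Y706.CH Finset Polynomial
open Pool.Agent.Y706.BI (UV eqv fU hh G0 gg rt Av nrm nrm_spec)

universe u v w

section Vec

variable {Ω : Type*} [NormedField Ω] [IsUltrametricDist Ω] {K : Type*} [Field K]

/-- Vector form of the local theorem. -/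
theorem local_vec2 [IsAlgClosed Ω] [DecidableEq K] (ι : K →+* Ω) (ord : K → ℤ)
    (hι : ∀ x : K, x ≠ 0 → ‖ι x‖ = Real.exp (-(ord x : ℝ)))
    (hnat : ∀ n : ℕ, n ≠ 0 → ‖(n : Ω)‖ = 1) (d : ℕ) (hd : 2 ≤ d) (p q : Polynomial K)
    (hp : p.natDegree ≤ d) (hq : q.natDegree = d) (S₀ : HS Ω)
    (hF₀ : S₀.F = bF d (p.map ι) (q.map ι)) (hd₀ : S₀.d = d)
    (hRes₀ : S₀.Res = ord (resultant q p d d)) (P : Finset K)
    (hP : ∀ z ∈ P, q.eval z ≠ 0 ∧ p.eval z / q.eval z ∈ P) (a : K → ℝ)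
    (ha : ∀ z ∈ P, (d : ℝ) * a z = ord (q.eval z) + a (p.eval z / q.eval z)) :
    ∃ (U V : K × K) (s : K) (R : ℕ) (t : K → K) (X : K → K × K) (A : K → ℝ),
      wd U V ≠ 0 ∧ s ≠ 0 ∧
      (∀ (h : wd (vm ι U) (vm ι V) ≠ 0) (hs : ι s ≠ 0),
        (S₀.conj (vm ι U) (vm ι V) h (ι s) hs).gs = 1 ∧
        (S₀.conj (vm ι U) (vm ι V) h (ι s) hs).Res = R) ∧
      (∀ S', Kr ι S₀ S' → S'.gs = 1 → (R : ℝ) ≤ S'.Res) ∧
      (R : ℝ) / (d * ((d : ℝ) - 1)) = (ord (resultant q p d d) : ℝ) / (d * ((d : ℝ) - 1)) +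
        ord (wd U V) + 2 * ord s / ((d : ℝ) - 1) ∧
      (∀ z, t z ≠ 0 ∧ ‖vm ι (X z)‖ = 1 ∧ t z • gmK U V (X z) = (z, 1) ∧
        A z = a z - ord (t z) + ord s / ((d : ℝ) - 1)) ∧
      (∀ z ∈ P, 0 ≤ A z ∧ A z ≤ R / ((d : ℝ) - 1)) ∧
      (∀ n : ℕ, (d : ℝ) ^ (2 * n) ≤ P.card → -(4 * (P.card : ℝ) ^ 2 * R / (d : ℝ) ^ n) ≤
        ∑ z ∈ P, ∑ z' ∈ P, if z = z' then 0 else
          (-Real.log ‖wd (vm ι (X z)) (vm ι (X z'))‖ - A z - A z' +
            (R : ℝ) / (d * ((d : ℝ) - 1)))) ∧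
      (1 ≤ R → ∃ χ : K → Fin (q₀ d), ∀ z ∈ P, ∀ z' ∈ P, z ≠ z' → χ z = χ z' →
        (R : ℝ) / (8 * d * (d + 1)) ≤ -Real.log ‖wd (vm ι (X z)) (vm ι (X z'))‖ - 2 * A z +
          (R : ℝ) / (d * ((d : ℝ) - 1))) := by
  classical
  have hdR : (2 : ℝ) ≤ d := by exact_mod_cast hd
  have hd1 : (0 : ℝ) < (d : ℝ) - 1 := by linarith
  have hlog : ∀ x : K, x ≠ 0 → -Real.log ‖ι x‖ = ord x := by
    intro x hx
    rw [hι x hx, Real.log_exp, neg_neg]
  set res := resultant q p d d with hres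
  have hrat : ∀ X : K × K, ∃ Y : K × K, S₀.F (vm ι X) = vm ι Y := by
    intro X
    refine ⟨(hev d p X, hev d q X), ?_⟩
    rw [hF₀]
    unfold bF
    rw [hev_map, hev_map]
    rfl
  have hResK : ∀ (S : HS Ω) (U V : K × K) (s : K), wd U V ≠ 0 → s ≠ 0 →
      S.Res = S₀.Res - (S₀.d * ((S₀.d : ℝ) - 1)) * Real.log ‖ι (wd U V)‖ -
        2 * S₀.d * Real.log ‖ι s‖ →
      S.Res = (ord res : ℝ) + d * ((d : ℝ) - 1) * ord (wd U V) + 2 * d * ord s := by
    intro S U V s hUV hs h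
    rw [h, hRes₀, hd₀]
    have e1 := hlog _ hUV
    have e2 := hlog _ hs
    have e1' : Real.log ‖ι (wd U V)‖ = -(ord (wd U V) : ℝ) := by linarith
    have e2' : Real.log ‖ι s‖ = -(ord s : ℝ) := by linarith
    rw [e1', e2']
    ring
  have hint : ∀ S, Kr ι S₀ S → ∃ m : ℤ, S.Res = m := by
    rintro S ⟨U, V, s, hUV, hs, hdS, hF, hR⟩
    refine ⟨ord res + d * ((d : ℤ) - 1) * ord (wd U V) + 2 * d * ord s, ?_⟩
    rw [hResK S U V s hUV hs hR]
    push_cast
    ring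
  obtain ⟨B, hB⟩ := exists_famK ι hnat
  obtain ⟨S, R, hK, hgs, hSR, hmin⟩ := exists_minimal hnat hrat hint
  have hK' := hK
  obtain ⟨U, V, s, hUV, hs, hdS, hF, hResS⟩ := hK
  rw [hd₀] at hdS
  have hUVΩ : wd (vm ι U) (vm ι V) ≠ 0 := by
    rw [vm_wd]
    exact (map_ne_zero ι).mpr hUV
  have hR1 := hResK S U V s hUV hs hResS
  rw [hSR] at hR1
  have hz1 : ∀ z : K, giK U V (z, 1) ≠ 0 := by
    intro z h
    have h1 := gmK_giK hUV (z, 1)
    rw [h] at h1
    unfold gmK at h1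
    have := congrArg Prod.snd h1
    simp at this
  choose t X ht hX htX using fun z : K => exists_unitK ι (giK U V (z, 1)) (hz1 z)
  have hgX : ∀ z, t z • gmK U V (X z) = (z, 1) := by
    intro z
    rw [← gmK_smul, ← htX, gmK_giK hUV]
  set fz : K → K := fun z => p.eval z / q.eval z with hfz
  -- the action of F
  have hFX : ∀ z ∈ P, S.F (vm ι (X z)) =
      ι (s * (t z)⁻¹ ^ d * q.eval z * t (fz z)) • vm ι (X (fz z)) := by
    intro z hz
    obtain ⟨hqz, _⟩ := hP z hz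
    have e1 : gmK U V (X z) = (t z)⁻¹ • ((z, 1) : K × K) := by
      rw [← hgX z, smul_smul, inv_mul_cancel₀ (ht z), one_smul]
    have e2 : S₀.F (vm ι ((z, 1) : K × K)) = vm ι (q.eval z • ((fz z, 1) : K × K)) := by
      rw [hF₀]
      unfold bF
      rw [hev_map, hev_map, hev_one d p hp, hev_one d q hq.le]
      unfold vm
      simp only [hfz, Prod.smul_fst, Prod.smul_snd, smul_eq_mul, mul_one]
      rw [mul_div_cancel₀ _ hqz]
    rw [hF, vm_gm, e1, vm_smul, S₀.hom, e2, vm_smul, gi_smul, gi_smul, vm_gi, htX (fz z), vm_smul,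
      smul_smul, smul_smul, smul_smul, hd₀]
    congr 1
    rw [map_mul, map_mul, map_mul, map_pow]
  have hlam0 : ∀ z ∈ P, s * (t z)⁻¹ ^ d * q.eval z * t (fz z) ≠ 0 := by
    intro z hz
    exact mul_ne_zero (mul_ne_zero (mul_ne_zero hs (pow_ne_zero _ (inv_ne_zero (ht z))))
      (hP z hz).1) (ht _)
  -- additivity of ord through the norm
  have hord_mul : ∀ x y : K, x ≠ 0 → y ≠ 0 → (ord (x * y) : ℝ) = ord x + ord y := by
    intro x y hx hy
    rw [← hlog _ (mul_ne_zero hx hy), ← hlog x hx, ← hlog y hy, map_mul, norm_mul,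
      Real.log_mul (norm_ne_zero_iff.mpr ((map_ne_zero ι).mpr hx))
        (norm_ne_zero_iff.mpr ((map_ne_zero ι).mpr hy))]
    ring
  have hord_inv_pow : ∀ (x : K) (n : ℕ), x ≠ 0 → (ord (x⁻¹ ^ n) : ℝ) = -(n * ord x) := by
    intro x n hx
    rw [← hlog _ (pow_ne_zero _ (inv_ne_zero hx)), ← hlog x hx, map_pow, norm_pow, Real.log_pow,
      map_inv₀, norm_inv, Real.log_inv]
    try ring
  set A : K → ℝ := fun z => a z - ord (t z) + ord s / ((d : ℝ) - 1) with hA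
  have hA1 : ∀ z ∈ P, (d : ℝ) * A z = -Real.log ‖S.F (vm ι (X z))‖ + A (fz z) := by
    intro z hz
    rw [hFX z hz, norm_smul, hX, mul_one, hlog _ (hlam0 z hz),
      hord_mul _ _ (mul_ne_zero (mul_ne_zero hs (pow_ne_zero _ (inv_ne_zero (ht z))))
      (hP z hz).1) (ht _), hord_mul _ _ (mul_ne_zero hs (pow_ne_zero _ (inv_ne_zero (ht z))))
      (hP z hz).1, hord_mul _ _ hs (pow_ne_zero _ (inv_ne_zero (ht z))), hord_inv_pow _ _ (ht z)]
    have h1 := ha z hz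
    simp only [hA]
    have e1 : (d : ℝ) * (a z - ord (t z) + ord s / ((d : ℝ) - 1)) =
        (d : ℝ) * a z - d * ord (t z) + ord s + ord s / ((d : ℝ) - 1) := by
      field_simp
      ring
    rw [e1, h1]
    ring
  have hfP : ∀ z ∈ P, fz z ∈ P := fun z hz => (hP z hz).2
  -- iteration
  have hiter : ∀ (n : ℕ), ∀ z ∈ P, ∃ z' ∈ P, ∃ μ : Ω, S.F^[n] (vm ι (X z)) = μ • vm ι (X z') ∧
      μ ≠ 0 ∧ (d : ℝ) ^ n * A z = -Real.log ‖μ‖ + A z' := by
    intro n
    induction n with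
    | zero =>
      intro z hz
      exact ⟨z, hz, 1, by simp, one_ne_zero, by simp⟩
    | succ n ih =>
      intro z hz
      obtain ⟨z', hz', μ, h1, h2, h3⟩ := ih z hz
      have hl0 : ι (s * (t z')⁻¹ ^ d * q.eval z' * t (fz z')) ≠ 0 :=
        (map_ne_zero ι).mpr (hlam0 z' hz')
      refine ⟨fz z', hfP z' hz', μ ^ d * ι (s * (t z')⁻¹ ^ d * q.eval z' * t (fz z')), ?_,
        mul_ne_zero (pow_ne_zero _ h2) hl0, ?_⟩
      · rw [Function.iterate_succ_apply', h1, S.hom, hFX z' hz', smul_smul, hdS]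
      · rw [norm_mul, norm_pow, Real.log_mul (pow_ne_zero _ (norm_ne_zero_iff.mpr h2))
          (norm_ne_zero_iff.mpr hl0), Real.log_pow]
        have h4 := hA1 z' hz'
        rw [hFX z' hz', norm_smul, hX, mul_one] at h4
        rw [pow_succ]
        have : (d : ℝ) ^ n * d * A z = d * ((d : ℝ) ^ n * A z) := by ring
        rw [this, h3]
        linarith
  -- bounds
  have hSF1 : ∀ z, 0 ≤ -Real.log ‖S.F (vm ι (X z))‖ ∧ -Real.log ‖S.F (vm ι (X z))‖ ≤ R := by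
    intro z
    constructor
    · have h1 := HS.le_gs (S := S) (hX z).le
      rw [hgs] at h1
      have := Real.log_nonpos (norm_nonneg _) h1
      linarith
    · have h1 := HS.lower B hgs.le (hX z)
      have h2 := Real.log_le_log (Real.exp_pos _) h1
      rw [Real.log_exp, hSR] at h2
      linarith
  have hAb : ∀ z ∈ P, 0 ≤ A z ∧ A z ≤ R / ((d : ℝ) - 1) := by
    intro z hz
    have hne : P.Nonempty := ⟨z, hz⟩
    constructor
    · obtain ⟨z₀, hz₀, hm⟩ := Finset.exists_min_image P A hne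
      have h1 := hA1 z₀ hz₀
      have h2 := hm _ (hfP z₀ hz₀)
      have h3 := (hSF1 z₀).1
      have h4 := hm z hz
      nlinarith
    · obtain ⟨z₀, hz₀, hm⟩ := Finset.exists_max_image P A hne
      have h1 := hA1 z₀ hz₀
      have h2 := hm _ (hfP z₀ hz₀)
      have h3 := (hSF1 z₀).2
      have h4 := hm z hz
      refine h4.trans ?_
      rw [le_div_iff₀ hd1]
      nlinarith
  have hR0 : (0 : ℝ) ≤ R := Nat.cast_nonneg _
  -- distinct points
  have hww : ∀ z z' : K, z ≠ z' → wd (vm ι (X z)) (vm ι (X z')) ≠ 0 := by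
    intro z z' hne h
    rw [vm_wd, map_eq_zero] at h
    have h1 := wd_gmK U V (X z) (X z')
    rw [h, mul_zero] at h1
    have h2 : wd (t z • gmK U V (X z)) (t z' • gmK U V (X z')) = 0 := by
      rw [wd_smul_left, wd_smul_right, h1, mul_zero, mul_zero]
    rw [hgX, hgX] at h2
    unfold wd at h2
    simp only [mul_one, one_mul] at h2
    exact hne (sub_eq_zero.mp h2)
  have hconj : ∀ (h : wd (vm ι U) (vm ι V) ≠ 0) (hs : ι s ≠ 0),
      (S₀.conj (vm ι U) (vm ι V) h (ι s) hs).gs = 1 ∧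
      (S₀.conj (vm ι U) (vm ι V) h (ι s) hs).Res = R := by
    intro h hs'
    constructor
    · obtain ⟨E₁, hE₁⟩ := HS.gs_attained (S := S₀.conj (vm ι U) (vm ι V) h (ι s) hs') B
      obtain ⟨E₂, hE₂⟩ := HS.gs_attained (S := S) B
      obtain ⟨i, hi⟩ := Infinite.exists_notMem_finset (E₁ ∪ E₂)
      rw [Finset.mem_union, not_or] at hi
      rw [← hE₁ i hi.1, ← hgs, ← hE₂ i hi.2, hF]
      rfl
    · rw [← hSR, hResS, ← vm_wd]
      rfl
  refine ⟨U, V, s, R, t, X, A, hUV, hs, hconj, fun S' h1 h2 => hSR ▸ hmin S' h1 h2, ?_,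
    fun z => ⟨ht z, hX z, hgX z, rfl⟩, hAb, ?_, ?_⟩
  · have hdd : (d : ℝ) * ((d : ℝ) - 1) ≠ 0 := by positivity
    rw [hR1]
    field_simp
  · -- energy
    intro n hn
    by_cases hPe : P.Nonempty
    swap
    · rw [Finset.not_nonempty_iff_eq_empty] at hPe
      rw [hPe]
      simp
    haveI : Nonempty {z // z ∈ P} := ⟨⟨hPe.choose, hPe.choose_spec⟩⟩
    have hNpos : (0 : ℝ) < P.card := by exact_mod_cast Finset.card_pos.mpr hPe
    set N : ℝ := (P.card : ℝ) with hN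
    set D : ℝ := (d : ℝ) ^ n with hD
    have hDpos : 0 < D := by positivity
    have hD1 : 1 ≤ D := one_le_pow₀ (by linarith)
    have hHd : (S.iter n).d = d ^ n := by rw [HS.iter_d, hdS]
    have hlogH : ∀ z : {z // z ∈ P}, ∃ z' ∈ P, -Real.log ‖(S.iter n).F (vm ι (X z.1))‖ =
        D * A z.1 - A z' := by
      intro z
      obtain ⟨z', hz', μ, h1, h2, h3⟩ := hiter n z.1 z.2
      refine ⟨z', hz', ?_⟩
      rw [HS.iter_F, h1, norm_smul, hX, mul_one, hD, h3]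
      ring
    have hgsn : Real.log (S.iter n).gs ≤ 0 := by
      obtain ⟨E, hE⟩ := HS.gs_attained (S := S.iter n) B
      obtain ⟨i, hi⟩ := Infinite.exists_notMem_finset E
      apply Real.log_nonpos (HS.gs_pos).le
      rw [← hE i hi, HS.iter_F]
      refine (HS.iter_le hgs n _).trans ?_
      rw [B.unit, one_pow]
    have hen := energy (ι := {z // z ∈ P}) B (S.iter n) (fun z => vm ι (X z.1)) (fun z => hX z.1)
      (fun z z' hne => hww z.1 z'.1 fun h => hne (Subtype.ext h)) (D * (R / ((d : ℝ) - 1)))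
      (by positivity) (by
        intro z
        obtain ⟨z', hz', h1⟩ := hlogH z
        rw [h1]
        have h2 := (hAb z.1 z.2).2
        have h3 := (hAb z' hz').1
        have h4 : D * A z.1 ≤ D * (R / ((d : ℝ) - 1)) := mul_le_mul_of_nonneg_left h2 hDpos.le
        linarith)
    rw [hHd, Fintype.card_coe, ← hN] at hen
    push_cast at hen
    rw [← hD] at hen
    set ρ := (R : ℝ) / (d * ((d : ℝ) - 1)) with hρ
    have hρ0 : 0 ≤ ρ := by positivity
    have h5 : (S.iter n).Res / D ^ 2 ≤ ρ := by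
      have h6 := HS.iter_Res S n
      rw [hdS, hSR, ← hD] at h6
      have hdd : 0 < (d : ℝ) * ((d : ℝ) - 1) := by positivity
      have h7 : (S.iter n).Res = ρ * (D * (D - 1)) := by
        rw [hρ]
        field_simp
        linarith
      rw [h7, div_le_iff₀ (by positivity)]
      nlinarith [mul_nonneg hρ0 hDpos.le]
    have h6 : ∑ z : {z // z ∈ P}, Real.log ‖(S.iter n).F (vm ι (X z.1))‖ ≤
        -(D * ∑ z ∈ P, A z) + N * (R / ((d : ℝ) - 1)) := by
      have : ∀ z : {z // z ∈ P}, Real.log ‖(S.iter n).F (vm ι (X z.1))‖ ≤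
          -(D * A z.1) + R / ((d : ℝ) - 1) := by
        intro z
        obtain ⟨z', hz', h1⟩ := hlogH z
        have := (hAb z' hz').2
        linarith
      refine (Finset.sum_le_sum fun z _ => this z).trans (le_of_eq ?_)
      rw [Finset.sum_add_distrib, Finset.sum_neg_distrib, ← Finset.mul_sum, Finset.sum_const,
        Finset.card_univ, Fintype.card_coe, nsmul_eq_mul, ← hN]
      congr 3
      exact Finset.sum_coe_sort P A
    have h7 : (∑ z : {z // z ∈ P}, ∑ z' : {z // z ∈ P}, if z = z' then 0 else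
        -Real.log ‖wd (vm ι (X z.1)) (vm ι (X z'.1))‖) =
        ∑ z ∈ P, ∑ z' ∈ P, if z = z' then 0 else
          -Real.log ‖wd (vm ι (X z)) (vm ι (X z'))‖ := by
      rw [← Finset.sum_coe_sort P]
      apply Finset.sum_congr rfl
      intro z _
      rw [← Finset.sum_coe_sort P]
      apply Finset.sum_congr rfl
      intro z' _
      by_cases h : z = z'
      · simp [h]
      · have h' : z.1 ≠ z'.1 := fun h' => h (Subtype.ext h')
        simp [h, h']
    rw [h7] at hen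
    set Ep := ∑ z ∈ P, ∑ z' ∈ P, (if z = z' then 0 else
      -Real.log ‖wd (vm ι (X z)) (vm ι (X z'))‖) with hEp
    set SA := ∑ z ∈ P, A z with hSA
    have hSA0 : 0 ≤ SA := Finset.sum_nonneg fun z hz => (hAb z hz).1
    have h8 : ∑ z ∈ P, ∑ z' ∈ P, (if z = z' then 0 else
          (-Real.log ‖wd (vm ι (X z)) (vm ι (X z'))‖ - A z - A z' + ρ)) =
        Ep - 2 * (N - 1) * SA + N * (N - 1) * ρ := by
      have e1 : ∀ z ∈ P, ∀ z' ∈ P, (if z = z' then 0 else
          (-Real.log ‖wd (vm ι (X z)) (vm ι (X z'))‖ - A z - A z' + ρ)) =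
          (if z = z' then 0 else -Real.log ‖wd (vm ι (X z)) (vm ι (X z'))‖) +
          ((-A z - A z' + ρ) - if z = z' then (-A z - A z' + ρ) else 0) := by
        intro z _ z' _
        by_cases h : z = z' <;> simp [h] <;> ring
      rw [Finset.sum_congr rfl fun z hz => Finset.sum_congr rfl fun z' hz' => e1 z hz z' hz']
      simp only [Finset.sum_add_distrib, Finset.sum_sub_distrib, Finset.sum_neg_distrib,
        Finset.sum_ite_eq, Finset.sum_const, nsmul_eq_mul]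
      rw [← hEp, ← Finset.mul_sum, ← hSA, ← hN]
      have e2 : ∑ z ∈ P, (if z ∈ P then -A z - A z + ρ else 0) = -2 * SA + N * ρ := by
        rw [Finset.sum_congr rfl fun z hz => if_pos hz, Finset.sum_add_distrib,
          Finset.sum_sub_distrib, Finset.sum_neg_distrib, Finset.sum_const, nsmul_eq_mul, ← hSA,
          ← hN]
        ring
      rw [e2]
      ring
    rw [h8]
    -- final computation
    have h9 : 2 / (N * D) * ∑ z : {z // z ∈ P}, Real.log ‖(S.iter n).F (vm ι (X z.1))‖ ≤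
        2 / (N * D) * (-(D * SA) + N * (R / ((d : ℝ) - 1))) :=
      mul_le_mul_of_nonneg_left h6 (by positivity)
    have h10 : 0 ≤ Ep / N ^ 2 + D * (R / ((d : ℝ) - 1)) / N +
        2 / (N * D) * (-(D * SA) + N * (R / ((d : ℝ) - 1))) + ρ := by linarith
    have h11 := mul_nonneg (sq_nonneg N) h10
    have h12 : N ^ 2 * (Ep / N ^ 2 + D * (R / ((d : ℝ) - 1)) / N +
        2 / (N * D) * (-(D * SA) + N * (R / ((d : ℝ) - 1))) + ρ) =
        Ep + N * (D * (R / ((d : ℝ) - 1))) - 2 * N * SA +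
          2 * N ^ 2 * (R / ((d : ℝ) - 1)) / D + N ^ 2 * ρ := by
      field_simp
      ring
    rw [h12] at h11
    have hRd : R / ((d : ℝ) - 1) ≤ R := by
      rw [div_le_iff₀ hd1]
      nlinarith
    have hND : D ^ 2 ≤ N := by
      have : D ^ 2 = (d : ℝ) ^ (2 * n) := by rw [hD, ← pow_mul, mul_comm]
      rw [this]
      exact hn
    have h13 : N * (D * (R / ((d : ℝ) - 1))) ≤ N ^ 2 * R / D := by
      rw [le_div_iff₀ hDpos]
      have e1 : N * (D * (R / ((d : ℝ) - 1))) * D = N * (R / ((d : ℝ) - 1)) * D ^ 2 := by ring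
      rw [e1]
      have e2 : N * (R / ((d : ℝ) - 1)) * D ^ 2 ≤ N * R * N := by
        apply mul_le_mul _ hND (by positivity) (by positivity)
        exact mul_le_mul_of_nonneg_left hRd hNpos.le
      calc _ ≤ N * R * N := e2
        _ = N ^ 2 * R := by ring
    have h14 : 2 * N ^ 2 * (R / ((d : ℝ) - 1)) / D ≤ 2 * N ^ 2 * R / D := by
      apply div_le_div_of_nonneg_right _ hDpos.le
      exact mul_le_mul_of_nonneg_left hRd (by positivity)
    have hρR : ρ ≤ R := by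
      rw [hρ, div_le_iff₀ (by positivity)]
      have : (1 : ℝ) ≤ d * ((d : ℝ) - 1) := by nlinarith
      nlinarith
    have h15 : N * ρ ≤ N ^ 2 * R / D := by
      rw [le_div_iff₀ hDpos]
      have e2 : N * ρ * D ≤ N * R * N := by
        apply mul_le_mul _ _ hDpos.le (by positivity)
        · exact mul_le_mul_of_nonneg_left hρR hNpos.le
        · nlinarith
      calc _ ≤ N * R * N := e2
        _ = N ^ 2 * R := by ring
    have h16 : 4 * N ^ 2 * R / D = N ^ 2 * R / D + 2 * N ^ 2 * R / D + N ^ 2 * R / D := by ring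
    rw [h16]
    nlinarith
  · -- colours
    intro hR1'
    have hRpos : (1 : ℝ) ≤ R := by exact_mod_cast hR1'
    obtain ⟨c₁, η₁, h₁⟩ := (S.iter 6).roots (0, 1) norm_e2
    obtain ⟨c₂, η₂, h₂⟩ := (S.iter 6).roots (1, 0) norm_e1
    have hHd : (S.iter 6).d = d ^ 6 := by rw [HS.iter_d, hdS]
    have hdpos : 0 < (S.iter 6).d := (S.iter 6).hd
    haveI : Nonempty (Fin (S.iter 6).d) := ⟨⟨0, hdpos⟩⟩
    have hnear : ∀ z : K, ∃ i : Fin (S.iter 6).d ⊕ Fin (S.iter 6).d,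
        ∀ j, ‖wd (vm ι (X z)) (Sum.elim η₁ η₂ i)‖ ≤ ‖wd (vm ι (X z)) (Sum.elim η₁ η₂ j)‖ := by
      intro z
      obtain ⟨i, _, hi⟩ := Finset.exists_min_image
        (Finset.univ : Finset (Fin (S.iter 6).d ⊕ Fin (S.iter 6).d))
        (fun i => ‖wd (vm ι (X z)) (Sum.elim η₁ η₂ i)‖) Finset.univ_nonempty
      exact ⟨i, fun j => hi j (Finset.mem_univ j)⟩
    choose χ₁ hχ₁ using hnear
    set wb : ℝ := R / (16 * d * (d + 1)) with hwb
    have hwbpos : 0 < wb := by positivity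
    set b : ℕ := 16 * d * (d + 1) + 1 with hb
    set χ' : K → (Fin (S.iter 6).d ⊕ Fin (S.iter 6).d) × Fin b := fun z =>
      (χ₁ z, ⟨min ⌊A z / wb⌋₊ (16 * d * (d + 1)), by omega⟩) with hχ'
    have hcard : Fintype.card ((Fin (S.iter 6).d ⊕ Fin (S.iter 6).d) × Fin b) = q₀ d := by
      simp only [Fintype.card_prod, Fintype.card_sum, Fintype.card_fin]
      rw [hHd]
      rfl
    refine ⟨fun z => Fintype.equivFinOfCardEq hcard (χ' z), ?_⟩
    intro z hz z' hz' hne hχ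
    have hχe : χ' z = χ' z' := (Fintype.equivFinOfCardEq hcard).injective hχ
    have hc1 : χ₁ z = χ₁ z' := congrArg Prod.fst hχe
    have hc2 : min ⌊A z / wb⌋₊ (16 * d * (d + 1)) = min ⌊A z' / wb⌋₊ (16 * d * (d + 1)) := by
      have := congrArg Prod.snd hχe
      exact congrArg Fin.val this
    have hfl : ∀ y ∈ P, ⌊A y / wb⌋₊ ≤ 16 * d * (d + 1) := by
      intro y hy
      have h1 : A y / wb ≤ ((16 * d * (d + 1) : ℕ) : ℝ) := by
        rw [div_le_iff₀ hwbpos, hwb]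
        push_cast
        have h2 := (hAb y hy).2
        have h3 : R / ((d : ℝ) - 1) ≤ R := by
          rw [div_le_iff₀ hd1]
          nlinarith
        have h4 : 16 * (d : ℝ) * (d + 1) * (R / (16 * d * (d + 1))) = R := by field_simp
        rw [h4]
        linarith
      calc ⌊A y / wb⌋₊ ≤ ⌊((16 * d * (d + 1) : ℕ) : ℝ)⌋₊ := Nat.floor_mono h1
        _ = _ := Nat.floor_natCast _
    rw [min_eq_left (hfl z hz), min_eq_left (hfl z' hz')] at hc2
    have hAA : ∀ y y', y ∈ P → y' ∈ P → ⌊A y / wb⌋₊ = ⌊A y' / wb⌋₊ → A y - A y' ≤ wb := by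
      intro y y' hy hy' h
      have h1 := Nat.floor_le (div_nonneg (hAb y' hy').1 hwbpos.le)
      have h2 := Nat.lt_floor_add_one (A y / wb)
      rw [← h] at h1
      rw [le_div_iff₀ hwbpos] at h1
      rw [div_lt_iff₀ hwbpos] at h2
      nlinarith
    have hpair : ∀ y y', y ∈ P → y' ∈ P → y ≠ y' → χ₁ y = χ₁ y' →
        ‖wd (vm ι (X y')) (Sum.elim η₁ η₂ (χ₁ y))‖ ≤ ‖wd (vm ι (X y)) (Sum.elim η₁ η₂ (χ₁ y))‖ →
        (R : ℝ) / (4 * d * (d + 1)) ≤ -Real.log ‖wd (vm ι (X y)) (vm ι (X y'))‖ - 2 * A y +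
          (R : ℝ) / (d * ((d : ℝ) - 1)) := by
      intro y y' hy hy' hyy hχy hle
      have hw := hww y y' hyy
      have hroot1 : ∀ i, ‖Sum.elim η₁ η₂ i‖ = 1 := by
        rintro (i | i)
        · exact h₁.2.1 i
        · exact h₂.2.1 i
      have hmaxw : ‖wd (vm ι (X y)) (vm ι (X y'))‖ ≤
          ‖wd (vm ι (X y)) (Sum.elim η₁ η₂ (χ₁ y))‖ := by
        refine (wd_ultra (hX y) (hX y') (hroot1 (χ₁ y))).trans (max_le le_rfl ?_)
        rw [wd_comm, norm_neg]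
        exact hle
      obtain ⟨s₂, hs₂, hg₂⟩ := exists_scale hnat hrat hK' hw
      obtain ⟨y'', hy'', μ, hμ1, hμ2, hμ3⟩ := hiter 6 y hy
      have hcp := HS.close_pair B hgs (by rw [hdS]; exact hd) 6 (c₁ := c₁) (c₂ := c₂) h₁ h₂ (hX y)
        (hX y') hw (fun l => hmaxw.trans (hχ₁ y (Sum.inl l)))
        (fun l => hmaxw.trans (hχ₁ y (Sum.inr l))) (ι s₂) hs₂ hg₂
        (hmin _ (Kr_conj hK' hw s₂ hs₂) hg₂) (A y) (A y'') (by
          rw [hdS, hμ1, norm_smul, hX, mul_one]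
          exact hμ3) (by
          rw [hdS, hSR]
          exact (hAb y'' hy'').2)
      rw [hdS, hSR] at hcp
      refine le_trans ?_ hcp
      have hd6 : (8 : ℝ) * d * (d + 1) ≤ (d : ℝ) ^ 6 := by
        have h2 : (2 : ℝ) ^ 4 ≤ (d : ℝ) ^ 4 := pow_le_pow_left₀ (by norm_num) hdR 4
        have h3 : (d : ℝ) ^ 6 = (d : ℝ) ^ 4 * d ^ 2 := by ring
        rw [h3]
        nlinarith [sq_nonneg (d : ℝ)]
      have e1 : ((d : ℝ) - 1) / (2 * (d + 1)) * (R / (d * (d - 1))) = R / (2 * d * (d + 1)) := by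
        field_simp
      rw [e1]
      have e2 : 2 * (R : ℝ) / ((d - 1) * (d : ℝ) ^ 6) ≤ R / (4 * d * (d + 1)) := by
        rw [div_le_div_iff₀ (by positivity) (by positivity)]
        have h4 : (4 : ℝ) * d * (d + 1) * 2 ≤ (d - 1) * (d : ℝ) ^ 6 := by
          have h5 : 0 < (d : ℝ) ^ 6 := by positivity
          have h6 : (d : ℝ) ^ 6 ≤ (d - 1) * (d : ℝ) ^ 6 := by nlinarith
          linarith
        nlinarith [mul_le_mul_of_nonneg_left h4 hR0]
      have e3 : (R : ℝ) / (2 * d * (d + 1)) = R / (4 * d * (d + 1)) + R / (4 * d * (d + 1)) := by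
        field_simp
        ring
      rw [e3]
      linarith
    have e8 : (R : ℝ) / (8 * d * (d + 1)) = R / (4 * d * (d + 1)) - 2 * wb := by
      rw [hwb]
      field_simp
      ring
    rcases le_total ‖wd (vm ι (X z')) (Sum.elim η₁ η₂ (χ₁ z))‖
      ‖wd (vm ι (X z)) (Sum.elim η₁ η₂ (χ₁ z))‖ with hle | hle
    · have h1 := hpair z z' hz hz' hne hc1 hle
      rw [e8]
      linarith
    · have h1 := hpair z' z hz' hz (Ne.symm hne) hc1.symm (by rw [← hc1]; exact hle)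
      rw [wd_comm, norm_neg] at h1
      have h2 := hAA z z' hz hz' hc2
      rw [e8]
      linarith

end Vec

section All

variable {k : Type*} {K : Type u} [Field k] [Field K] [Algebra k K]

/-- **The local theorem.** -/
theorem local_all2 [CharZero k] [DecidableEq K] (Q : PlaceData k K) (v : Q.Pl)
    {Ω : Type*} [NormedField Ω] [IsUltrametricDist Ω] [IsAlgClosed Ω] (ι : K →+* Ω)
    (hι : ∀ x : K, x ≠ 0 → ‖ι x‖ = Real.exp (-(Q.ord v x : ℝ)))
    (hnat : ∀ n : ℕ, n ≠ 0 → ‖(n : Ω)‖ = 1) (d : ℕ) (hd : 2 ≤ d)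
    (p q : Polynomial K) (hp : p.natDegree ≤ d) (hq : q.natDegree = d) (S₀ : HS Ω)
    (hF₀ : S₀.F = bF d (p.map ι) (q.map ι)) (hd₀ : S₀.d = d)
    (hRes₀ : S₀.Res = Q.ord v (resultant q p d d))
    (P : Finset K) (hP : ∀ z ∈ P, q.eval z ≠ 0 ∧ p.eval z / q.eval z ∈ P) (a : K → ℝ)
    (ha : ∀ z ∈ P, (d : ℝ) * a z = Q.ord v (q.eval z) + a (p.eval z / q.eval z)) (ρ : ℝ)
    (hρ : ρ = (Q.ord v (resultant q p d d) : ℝ) / (d * ((d : ℝ) - 1))) :
    ∃ (L : LD Q v d P a ρ) (U V : K × K) (s : K), wd U V ≠ 0 ∧ s ≠ 0 ∧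
      (∀ (h : wd (vm ι U) (vm ι V) ≠ 0) (hs : ι s ≠ 0),
        (S₀.conj (vm ι U) (vm ι V) h (ι s) hs).gs = 1 ∧
        (S₀.conj (vm ι U) (vm ι V) h (ι s) hs).Res = L.R) ∧
      (∀ S', Kr ι S₀ S' → S'.gs = 1 → (L.R : ℝ) ≤ S'.Res) := by
  classical
  have hlog : ∀ x : K, x ≠ 0 → -Real.log ‖ι x‖ = Q.ord v x := by
    intro x hx
    rw [hι x hx, Real.log_exp, neg_neg]
  obtain ⟨U, V, s, R, t, X, A, hUV, hs, hcj, hmn, hR, hX, hAb, hE, hC⟩ :=
    local_vec2 ι (Q.ord v) hι hnat d hd p q hp hq S₀ hF₀ hd₀ hRes₀ P hP a ha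
  rw [← hρ] at hR
  have hdR : (2 : ℝ) ≤ d := by exact_mod_cast hd
  -- ord facts
  have hordn : ∀ x : K, x ≠ 0 → ‖ι x‖ = 1 → Q.ord v x = 0 := by
    intro x hx h
    have h1 := hlog x hx
    rw [h, Real.log_one, neg_zero] at h1
    exact_mod_cast h1.symm
  -- choose the constant
  obtain ⟨B, hB⟩ := exists_famK ι hnat
  obtain ⟨E, hE'⟩ := bad_finite B (P.image fun z => vm ι (X z)) (by
    intro W hW
    rw [Finset.mem_image] at hW
    obtain ⟨z, _, rfl⟩ := hW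
    exact (hX z).2.1)
  obtain ⟨E2, hE2⟩ : ∃ E2 : Finset ℕ, ∀ i, i ∉ E2 → (i : K) * U.2 + V.2 ≠ 0 := by
    by_cases hU2 : U.2 = 0
    · refine ⟨∅, fun i _ h => ?_⟩
      rw [hU2, mul_zero, zero_add] at h
      apply hUV
      unfold wd
      rw [hU2, h]
      ring
    · by_cases hex : ∃ i₀ : ℕ, (i₀ : K) * U.2 + V.2 = 0
      · obtain ⟨i₀, hi₀⟩ := hex
        refine ⟨{i₀}, fun i hi h => ?_⟩
        rw [Finset.mem_singleton] at hi
        apply hi
        have h1 : (i : K) * U.2 = i₀ * U.2 := by linear_combination h - hi₀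
        have h2 := mul_right_cancel₀ hU2 h1
        have h3 : algebraMap k K (i : k) = algebraMap k K (i₀ : k) := by simpa using h2
        have h4 := (algebraMap k K).injective h3
        exact_mod_cast h4
      · push Not at hex
        exact ⟨∅, fun i _ => hex i⟩
  obtain ⟨i, hi⟩ := Infinite.exists_notMem_finset (E ∪ E2)
  rw [Finset.mem_union, not_or] at hi
  set c : K := (i : K) with hc
  set U2 : K := c * U.2 + V.2 with hU2
  have hU20 : U2 ≠ 0 := hE2 i hi.2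
  set U1 : K := c * U.1 + V.1 with hU1
  -- the denominators
  have hden : ∀ z ∈ P, ‖ι ((X z).1 - c * (X z).2)‖ = 1 := by
    intro z hz
    have h1 := hE' i hi.1 _ (Finset.mem_image_of_mem _ hz)
    rw [hB i, vm_wd] at h1
    have h2 : wd ((c, 1) : K × K) (X z) = -((X z).1 - c * (X z).2) := by
      unfold wd
      ring
    rw [← hc, h2, map_neg, norm_neg] at h1
    exact h1
  have hden0 : ∀ z ∈ P, (X z).1 - c * (X z).2 ≠ 0 := by
    intro z hz h
    have := hden z hz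
    rw [h, map_zero, norm_zero] at this
    exact zero_ne_one this
  -- explicit formulas
  set W : K := wd U V with hW
  have hWe : W = U.1 * V.2 - U.2 * V.1 := rfl
  set μ : K := U1 / U2 with hμ
  set lam : K := W / U2 ^ 2 with hlam
  set ν : K := -(U.2 / U2) with hν
  have hlam0 : lam ≠ 0 := div_ne_zero hUV (pow_ne_zero _ hU20)
  have hcoord : ∀ z ∈ P, t z * ((X z).1 * U.1 + (X z).2 * V.1) = z ∧
      t z * ((X z).1 * U.2 + (X z).2 * V.2) = 1 := by
    intro z _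
    have h1 := (hX z).2.2.1
    unfold gmK at h1
    have e1 := congrArg Prod.fst h1
    have e2 := congrArg Prod.snd h1
    simp only [Prod.smul_fst, Prod.smul_snd, Prod.fst_add, Prod.snd_add, smul_eq_mul] at e1 e2
    exact ⟨e1, e2⟩
  -- z - μ
  have hzμ : ∀ z ∈ P, (z - μ) * U2 = t z * ((X z).1 - c * (X z).2) * W := by
    intro z hz
    obtain ⟨e1, e2⟩ := hcoord z hz
    have h1 : (z - μ) * U2 = z * U2 - U1 := by
      rw [hμ]
      field_simp
    rw [h1]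
    have key : ∀ tt x1 x2 u1 u2 v1 v2 cc zz : K, tt * (x1 * u1 + x2 * v1) = zz →
        tt * (x1 * u2 + x2 * v2) = 1 →
        zz * (cc * u2 + v2) - (cc * u1 + v1) = tt * (x1 - cc * x2) * (u1 * v2 - u2 * v1) := by
      intro tt x1 x2 u1 u2 v1 v2 cc zz g1 g2
      rw [← g1]
      linear_combination (-(cc * u1 + v1)) * (-g2)
    exact key _ _ _ _ _ _ _ _ _ e1 e2
  have hzne : ∀ z ∈ P, z ≠ μ := by
    intro z hz h
    have h1 := hzμ z hz
    have h0 : z - μ = 0 := sub_eq_zero.mpr h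
    rw [h0, zero_mul] at h1
    exact mul_ne_zero (mul_ne_zero (hX z).1 (hden0 z hz)) hUV h1.symm
  have hlx : ∀ z ∈ P, lam / (z - μ) = 1 / (t z * ((X z).1 - c * (X z).2) * U2) := by
    intro z hz
    have h1 := (hX z).1
    have h2 := hden0 z hz
    have h3 : z - μ ≠ 0 := sub_ne_zero.mpr (hzne z hz)
    have key : ∀ W' u2 tt x : K, x ≠ 0 → u2 ≠ 0 → tt ≠ 0 → x * u2 = tt * W' →
        (W' / u2 ^ 2) / x = 1 / (tt * u2) := by
      intro W' u2 tt x g1 g2 g3 g4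
      rw [div_div, div_eq_div_iff (mul_ne_zero (pow_ne_zero _ g2) g1) (mul_ne_zero g3 g2)]
      linear_combination (-u2) * g4
    exact key _ _ _ _ h3 hU20 (mul_ne_zero h1 h2) (hzμ z hz)
  have hlcx : ∀ z ∈ P, lc μ lam ν z = (X z).2 / ((X z).1 - c * (X z).2) := by
    intro z hz
    unfold lc
    rw [hlx z hz, hν]
    have h1 := (hX z).1
    have h2 := hden0 z hz
    obtain ⟨_, e2⟩ := hcoord z hz
    have h3 : (t z)⁻¹ = (X z).1 * U.2 + (X z).2 * V.2 := by
      rw [← mul_right_inj' h1, mul_inv_cancel₀ h1, e2]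
    have h4 : 1 / (t z * ((X z).1 - c * (X z).2) * U2) =
        (t z)⁻¹ / (((X z).1 - c * (X z).2) * U2) := by
      field_simp
    rw [h4, h3]
    have h5 : (X z).1 * U.2 + (X z).2 * V.2 =
        (X z).2 * U2 + ((X z).1 - c * (X z).2) * U.2 := by
      rw [hU2]
      ring
    rw [h5]
    have key : ∀ b' dd u2 us : K, dd ≠ 0 → u2 ≠ 0 →
        -(us / u2) + (b' * u2 + dd * us) / (dd * u2) = b' / dd := by
      intro b' dd u2 us h1 h2
      field_simp
      ring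
    exact key _ _ _ _ h2 hU20
  have hordden : ∀ z ∈ P, Q.ord v ((X z).1 - c * (X z).2) = 0 := fun z hz =>
    hordn _ (hden0 z hz) (hden z hz)
  have hordlx : ∀ z ∈ P, (Q.ord v (lam / (z - μ)) : ℝ) = -Q.ord v (t z) - Q.ord v U2 := by
    intro z hz
    rw [hlx z hz, PlaceData.ord_div one_ne_zero
      (mul_ne_zero (mul_ne_zero (hX z).1 (hden0 z hz)) hU20), PlaceData.ord_one,
      Q.ord_mul v _ _ (mul_ne_zero (hX z).1 (hden0 z hz)) hU20,
      Q.ord_mul v _ _ (hX z).1 (hden0 z hz), hordden z hz]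
    push_cast
    ring
  set σ : ℝ := Q.ord v s / ((d : ℝ) - 1) with hσ
  set τ : ℝ := Q.ord v U2 + σ with hτ
  have hordlam : (Q.ord v lam : ℝ) = Q.ord v W - 2 * Q.ord v U2 := by
    rw [hlam, PlaceData.ord_div hUV (pow_ne_zero _ hU20), PlaceData.ord_pow hU20]
    push_cast
    ring
  have hAeq : ∀ z ∈ P, a z + Q.ord v (lam / (z - μ)) + τ = A z := by
    intro z hz
    rw [hordlx z hz, (hX z).2.2.2, hτ, hσ]
    ring
  have hwdne : ∀ z z' : K, z ≠ z' → wd (X z) (X z') ≠ 0 := by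
    intro z z' hne h
    have h1 := wd_gmK U V (X z) (X z')
    rw [h, mul_zero] at h1
    have h2 : wd (t z • gmK U V (X z)) (t z' • gmK U V (X z')) = 0 := by
      rw [wd_smul_left, wd_smul_right, h1, mul_zero, mul_zero]
    rw [(hX z).2.2.1, (hX z').2.2.1] at h2
    unfold wd at h2
    simp only [mul_one, one_mul] at h2
    exact hne (sub_eq_zero.mp h2)
  have hlogw : ∀ z z' : K, z ≠ z' → -Real.log ‖wd (vm ι (X z)) (vm ι (X z'))‖ =
      Q.ord v (wd (X z) (X z')) := by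
    intro z z' hne
    rw [vm_wd, hlog _ (hwdne z z' hne)]
  have hzz : ∀ z z' : K, z - z' = t z * t z' * (W * wd (X z) (X z')) := by
    intro z z'
    have h2 : wd (t z • gmK U V (X z)) (t z' • gmK U V (X z')) =
        t z * t z' * (W * wd (X z) (X z')) := by
      rw [wd_smul_left, wd_smul_right, wd_gmK]
      ring
    rw [(hX z).2.2.1, (hX z').2.2.1] at h2
    rw [← h2]
    unfold wd
    ring
  have hordzz : ∀ z z' : K, z ≠ z' → (Q.ord v (z - z') : ℝ) =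
      Q.ord v (t z) + Q.ord v (t z') + Q.ord v W + Q.ord v (wd (X z) (X z')) := by
    intro z z' hne
    rw [hzz z z', Q.ord_mul v _ _ (mul_ne_zero (hX z).1 (hX z').1)
      (mul_ne_zero hUV (hwdne z z' hne)), Q.ord_mul v _ _ (hX z).1 (hX z').1,
      Q.ord_mul v _ _ hUV (hwdne z z' hne)]
    push_cast
    ring
  have hGG : ∀ z z' : K, z ≠ z' → -Real.log ‖wd (vm ι (X z)) (vm ι (X z'))‖ - A z - A z' +
      (R : ℝ) / (d * ((d : ℝ) - 1)) = GG Q v a ρ z z' := by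
    intro z z' hne
    unfold GG
    rw [hlogw z z' hne, hordzz z z' hne, (hX z).2.2.2, (hX z').2.2.2, hR]
    ring
  have hordlc : ∀ z ∈ P, ∀ z' ∈ P, z ≠ z' → Q.ord v (lc μ lam ν z - lc μ lam ν z') =
      Q.ord v (wd (X z) (X z')) := by
    intro z hz z' hz' hne
    have h1 := hden0 z hz
    have h2 := hden0 z' hz'
    have h3 : lc μ lam ν z - lc μ lam ν z' =
        -(wd (X z) (X z') / (((X z).1 - c * (X z).2) * ((X z').1 - c * (X z').2))) := by
      rw [hlcx z hz, hlcx z' hz']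
      have key : ∀ a b a' b' cc : K, a - cc * b ≠ 0 → a' - cc * b' ≠ 0 →
          b / (a - cc * b) - b' / (a' - cc * b') =
            -((a * b' - b * a') / ((a - cc * b) * (a' - cc * b'))) := by
        intro a b a' b' cc g1 g2
        rw [div_sub_div _ _ g1 g2, ← neg_div]
        congr 1
        ring
      exact key _ _ _ _ _ h1 h2
    rw [h3, PlaceData.ord_neg (div_ne_zero (hwdne z z' hne) (mul_ne_zero h1 h2)),
      PlaceData.ord_div (hwdne z z' hne) (mul_ne_zero h1 h2), Q.ord_mul v _ _ h1 h2,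
      hordden z hz, hordden z' hz']
    ring
  refine ⟨⟨μ, lam, ν, τ, R, hlam0, fun z hz => ⟨hzne z hz, ?_⟩, ?_, ?_, ?_, ?_⟩, U, V, s, hUV, hs,
    hcj, hmn⟩
  · -- integrality
    intro h0
    have h1 := hι _ h0
    have h2 : ‖ι (lc μ lam ν z)‖ ≤ 1 := by
      rw [hlcx z hz, map_div₀, norm_div, hden z hz, div_one]
      have h3 := norm_snd_le (vm ι (X z))
      rw [(hX z).2.1] at h3
      exact h3
    rw [h1, ← Real.exp_zero] at h2
    have h4 := Real.exp_le_exp.mp h2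
    have h5 : (0 : ℝ) ≤ Q.ord v (lc μ lam ν z) := by linarith
    exact_mod_cast h5
  · rw [hR, hordlam, hτ, hσ]
    ring
  · intro z hz
    change 0 ≤ a z + Q.ord v (lam / (z - μ)) + τ ∧ a z + Q.ord v (lam / (z - μ)) + τ ≤ _
    rw [hAeq z hz]
    exact hAb z hz
  · intro n hn
    have h1 := hE n hn
    refine h1.trans (le_of_eq ?_)
    apply Finset.sum_congr rfl
    intro z _
    apply Finset.sum_congr rfl
    intro z' _
    by_cases h : z = z'
    · simp [h]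
    · rw [if_neg h, if_neg h, hGG z z' h]
  · intro hR1
    obtain ⟨χ, hχ⟩ := hC hR1
    refine ⟨χ, fun z hz z' hz' hne hzz' => ?_⟩
    have h1 := hχ z hz z' hz' hne hzz'
    rw [hlogw z z' hne] at h1
    change _ ≤ ((Q.ord v (lc μ lam ν z - lc μ lam ν z') : ℤ) : ℝ) -
      2 * (a z + Q.ord v (lam / (z - μ)) + τ) + _
    rw [hordlc z hz z' hz' hne, hAeq z hz]
    exact h1

end All

theorem pair2 (hG : S_GRN2.{u}) {K : Type u} [Field K] [DecidableEq K] {Ω : Type u} [NormedField Ω]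
    [IsUltrametricDist Ω] [IsAlgClosed Ω] (ι : K →+* Ω) (ord : K → ℤ)
    (hι : ∀ x : K, x ≠ 0 → ‖ι x‖ = Real.exp (-(ord x : ℝ)))
    (hnat : ∀ n : ℕ, n ≠ 0 → ‖(n : Ω)‖ = 1)
    (d : ℕ) (hd : 2 ≤ d) (p q : K[X]) (hp : p.natDegree ≤ d) (hq : q.natDegree = d)
    (P : Finset K) (hP : ∀ z ∈ P, q.eval z ≠ 0 ∧ p.eval z / q.eval z ∈ P) (a : K → ℝ)
    (ha : ∀ z ∈ P, (d : ℝ) * a z = ord (q.eval z) + a (p.eval z / q.eval z))
    (S₀ : HS Ω) (hS₀F : S₀.F = bF d (p.map ι) (q.map ι)) (hS₀d : S₀.d = d)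
    (hS₀R : S₀.Res = ord (resultant q p d d))
    (A B : Ω × Ω) (h : wd A B ≠ 0) (s : Ω) (hs : s ≠ 0)
    (T : HS Ω) (hT : T = S₀.conj A B h s hs) (hgs : T.gs = 1) :
    ∃ X : K → UV Ω, ∀ z ∈ P, ∀ z' ∈ P, z ≠ z' → ¬ eqv (X z) (X z') ∧
      gg T (X z) (X z') = (ord (z - z') : ℝ) - a z - a z' +
        (ord (resultant q p d d) : ℝ) / (d * ((d : ℝ) - 1)) := by
  have hSd : T.d = d := by
    rw [hT]
    exact hS₀d
  obtain ⟨-, -, -, g4, -, g6, -, -, -, -⟩ := hG Ω hnat T hgs (by rw [hSd]; exact hd)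
  have hdR : (2 : ℝ) ≤ d := by exact_mod_cast hd
  have hd1 : (0 : ℝ) < (d : ℝ) - 1 := by linarith
  have hSR : T.Res = (ord (resultant q p d d) : ℝ) - (d * ((d : ℝ) - 1)) * Real.log ‖wd A B‖ -
      2 * d * Real.log ‖s‖ := by
    rw [hT]
    change S₀.Res - (S₀.d * ((S₀.d : ℝ) - 1)) * Real.log ‖wd A B‖ - 2 * S₀.d * Real.log ‖s‖ = _
    rw [hS₀R, hS₀d]
  have hSF : ∀ Y, T.F Y = s • gi A B (S₀.F (gm A B Y)) := by
    intro Y
    rw [hT]
    rfl
  -- the vectors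
  have hW : ∀ z : K, gi A B ((ι z, 1) : Ω × Ω) ≠ 0 := by
    intro z h0
    have h1 := gm_gi h ((ι z, 1) : Ω × Ω)
    rw [h0] at h1
    have h2 := congrArg Prod.snd h1
    simp [gm] at h2
  set X : K → UV Ω := fun z => nrm (gi A B ((ι z, 1) : Ω × Ω)) (hW z) with hX
  have hex : ∀ z : K, ∃ t : Ω, t ≠ 0 ∧ gi A B ((ι z, 1) : Ω × Ω) = t • (X z).1 := by
    intro z
    obtain ⟨t, h1, h2, -⟩ := nrm_spec (gi A B ((ι z, 1) : Ω × Ω)) (hW z)
    exact ⟨t, h1, h2⟩
  choose t ht htX using hex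
  have hlogt : ∀ z, (0 : ℝ) < ‖t z‖ := fun z => norm_pos_iff.mpr (ht z)
  have hls : (0 : ℝ) < ‖s‖ := norm_pos_iff.mpr hs
  set fz : K → K := fun z => p.eval z / q.eval z with hfz
  have hfP : ∀ z ∈ P, fz z ∈ P := fun z hz => (hP z hz).2
  have hlog : ∀ x : K, x ≠ 0 → Real.log ‖ι x‖ = -(ord x : ℝ) := by
    intro x hx
    rw [hι x hx, Real.log_exp]
  -- the action of the map
  have hS0 : ∀ z ∈ P, S₀.F ((ι z, 1) : Ω × Ω) = ι (q.eval z) • ((ι (fz z), 1) : Ω × Ω) := by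
    intro z hz
    have h1 : hev d (p.map ι) ((ι z, 1) : Ω × Ω) = ι (p.eval z) := by
      have := hev_map ι d p (z, 1)
      rw [hev_one d p hp] at this
      rw [← this]
      simp [vm]
    have h2 : hev d (q.map ι) ((ι z, 1) : Ω × Ω) = ι (q.eval z) := by
      have := hev_map ι d q (z, 1)
      rw [hev_one d q hq.le] at this
      rw [← this]
      simp [vm]
    rw [hS₀F]
    unfold bF
    rw [h1, h2]
    have h3 : ι (q.eval z) ≠ 0 := (map_ne_zero ι).mpr (hP z hz).1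
    ext
    · simp only [hfz, Prod.smul_fst, smul_eq_mul, map_div₀]
      field_simp
    · simp
  have hFX : ∀ z ∈ P, T.F (X z).1 =
      ((t z ^ d)⁻¹ * (s * ι (q.eval z) * t (fz z))) • (X (fz z)).1 := by
    intro z hz
    have h1 : T.F (gi A B ((ι z, 1) : Ω × Ω)) =
        (s * ι (q.eval z)) • gi A B ((ι (fz z), 1) : Ω × Ω) := by
      rw [hSF, gm_gi h, hS0 z hz, gi_smul, smul_smul]
    rw [htX z, T.hom, hSd, htX (fz z), smul_smul] at h1
    have h2 : T.F (X z).1 = (t z ^ d)⁻¹ • (t z ^ d • T.F (X z).1) := by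
      rw [smul_smul, inv_mul_cancel₀ (pow_ne_zero _ (ht z)), one_smul]
    rw [h2, h1, smul_smul]
  have hμ0 : ∀ z ∈ P, (t z ^ d)⁻¹ * (s * ι (q.eval z) * t (fz z)) ≠ 0 := by
    intro z hz
    exact mul_ne_zero (inv_ne_zero (pow_ne_zero _ (ht z)))
      (mul_ne_zero (mul_ne_zero hs ((map_ne_zero ι).mpr (hP z hz).1)) (ht _))
  have hhh : ∀ z ∈ P, hh T (X z) = -(d * Real.log ‖t z‖) + (Real.log ‖s‖ -
      (ord (q.eval z) : ℝ) + Real.log ‖t (fz z)‖) := by
    intro z hz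
    unfold hh
    have h3 : ι (q.eval z) ≠ 0 := (map_ne_zero ι).mpr (hP z hz).1
    rw [hFX z hz, norm_smul, (X (fz z)).2, mul_one, norm_mul, norm_mul, norm_mul, norm_inv,
      norm_pow, Real.log_mul (inv_ne_zero (pow_ne_zero _ (hlogt z).ne'))
        (mul_pos (mul_pos hls (norm_pos_iff.mpr h3)) (hlogt (fz z))).ne',
      Real.log_mul (mul_pos hls (norm_pos_iff.mpr h3)).ne' (hlogt (fz z)).ne',
      Real.log_mul hls.ne' (norm_pos_iff.mpr h3).ne',
      hlog _ (hP z hz).1, Real.log_inv, Real.log_pow]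
    ring
  have heq : ∀ z ∈ P, eqv (fU T (X z)) (X (fz z)) := by
    intro z hz
    obtain ⟨τ, h1, h2, -⟩ := nrm_spec (T.F (X z).1) (T.nz _ (X z).ne)
    have h3 : wd (T.F (X z).1) (X (fz z)).1 = 0 := by
      rw [hFX z hz, wd_smul_left, wd_self, mul_zero]
    rw [h2, wd_smul_left] at h3
    exact (mul_eq_zero.mp h3).resolve_left h1
  have hG0 : ∀ z ∈ P, G0 T (X (fz z)) = d * G0 T (X z) - hh T (X z) := by
    intro z hz
    rw [← (g6 _ _ (heq z hz)).2.1, g4, hSd]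
  -- the invariant function
  have hinv : ∀ z ∈ P, G0 T (X z) + Real.log ‖t z‖ - Real.log ‖s‖ / ((d : ℝ) - 1) + a z = 0 := by
    refine stable_zero d hd P fz hfP
      (fun z => G0 T (X z) + Real.log ‖t z‖ - Real.log ‖s‖ / ((d : ℝ) - 1) + a z) ?_
    intro z hz
    have h1 := hG0 z hz
    have h2 := hhh z hz
    have h3 := ha z hz
    have h4 : (d : ℝ) * (Real.log ‖s‖ / ((d : ℝ) - 1)) =
        Real.log ‖s‖ + Real.log ‖s‖ / ((d : ℝ) - 1) := by
      field_simp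
      ring
    rw [h1, h2]
    have h5 : a (fz z) = d * a z - ord (q.eval z) := by
      rw [h3]
      ring
    rw [h5]
    linear_combination -h4
  refine ⟨X, fun z hz z' hz' hne => ?_⟩
  have hwd : (t z * t z') * wd (X z).1 (X z').1 = (wd A B)⁻¹ * ι (z - z') := by
    have h1 : wd (gi A B ((ι z, 1) : Ω × Ω)) (gi A B ((ι z', 1) : Ω × Ω)) =
        (wd A B)⁻¹ * ι (z - z') := by
      rw [wd_gi h, gm_gi h]
      congr 1
      unfold wd
      rw [map_sub]
      ring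
    rw [htX z, htX z', wd_smul_left, wd_smul_right] at h1
    rw [← h1]
    ring
  have hzz : z - z' ≠ 0 := sub_ne_zero.mpr hne
  have hw0 : wd (X z).1 (X z').1 ≠ 0 := by
    intro h0
    rw [h0, mul_zero] at hwd
    exact mul_ne_zero (inv_ne_zero h) ((map_ne_zero ι).mpr hzz) hwd.symm
  refine ⟨hw0, ?_⟩
  have hlw := congrArg (fun x : Ω => Real.log ‖x‖) hwd
  simp only [norm_mul, norm_inv] at hlw
  rw [Real.log_mul (mul_pos (hlogt z) (hlogt z')).ne' (norm_pos_iff.mpr hw0).ne',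
    Real.log_mul (hlogt z).ne' (hlogt z').ne',
    Real.log_mul (inv_ne_zero (norm_pos_iff.mpr h).ne')
      (norm_pos_iff.mpr ((map_ne_zero ι).mpr hzz)).ne', Real.log_inv, hlog _ hzz] at hlw
  have i1 := hinv z hz
  have i2 := hinv z' hz'
  unfold gg
  rw [hSd, hSR]
  have e1 : ((ord (resultant q p d d) : ℝ) - (d * ((d : ℝ) - 1)) * Real.log ‖wd A B‖ -
      2 * d * Real.log ‖s‖) / (d * ((d : ℝ) - 1)) =
      (ord (resultant q p d d) : ℝ) / (d * ((d : ℝ) - 1)) - Real.log ‖wd A B‖ -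
      2 * (Real.log ‖s‖ / ((d : ℝ) - 1)) := by
    field_simp
  rw [e1]
  linear_combination i1 + i2 - hlw

/-- upper bound for a form with bounded coefficients -/
lemma hev_le {Ω : Type*} [NormedField Ω] [IsUltrametricDist Ω] {K : Type*} [Field K] (ι : K →+* Ω)
    (ord : K → ℤ) (hι : ∀ x : K, x ≠ 0 → ‖ι x‖ = Real.exp (-(ord x : ℝ))) (d : ℕ) (p : K[X])
    (M : ℝ) (hM : ∀ i, p.coeff i ≠ 0 → -M ≤ ord (p.coeff i)) (X : Ω × Ω) (hX : ‖X‖ = 1) :
    ‖hev d (p.map ι) X‖ ≤ Real.exp M := by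
  unfold hev
  apply IsUltrametricDist.norm_sum_le_of_forall_le_of_nonneg (Real.exp_pos M).le
  intro i _
  have h1 : ‖X.1‖ ≤ 1 := (norm_fst_le X).trans hX.le
  have h2 : ‖X.2‖ ≤ 1 := (norm_snd_le X).trans hX.le
  rw [norm_mul, norm_mul, norm_pow, norm_pow, coeff_map]
  have h3 : ‖ι (p.coeff i)‖ ≤ Real.exp M := by
    by_cases h : p.coeff i = 0
    · rw [h, map_zero, norm_zero]
      exact (Real.exp_pos M).le
    · rw [hι _ h]
      apply Real.exp_le_exp.mpr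
      have := hM i h
      linarith
  have h4 : ‖X.1‖ ^ i ≤ 1 := pow_le_one₀ (norm_nonneg _) h1
  have h5 : ‖X.2‖ ^ (d - i) ≤ 1 := pow_le_one₀ (norm_nonneg _) h2
  calc ‖ι (p.coeff i)‖ * ‖X.1‖ ^ i * ‖X.2‖ ^ (d - i)
      ≤ ‖ι (p.coeff i)‖ * ‖X.1‖ ^ i * 1 :=
        mul_le_mul_of_nonneg_left h5 (mul_nonneg (norm_nonneg _) (pow_nonneg (norm_nonneg _) _))
    _ ≤ ‖ι (p.coeff i)‖ * 1 * 1 := by
        rw [mul_one, mul_one]
        exact mul_le_mul_of_nonneg_left h4 (norm_nonneg _)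
    _ ≤ Real.exp M := by rw [mul_one, mul_one]; exact h3

/-- the trivial change of coordinates -/
lemma exists_small {Ω : Type*} [NormedField Ω] [IsUltrametricDist Ω] {K : Type*} [Field K]
    [IsAlgClosed Ω] (ι : K →+* Ω) (ord : K → ℤ)
    (hι : ∀ x : K, x ≠ 0 → ‖ι x‖ = Real.exp (-(ord x : ℝ)))
    (hnat : ∀ n : ℕ, n ≠ 0 → ‖(n : Ω)‖ = 1) (d : ℕ) (p q : K[X])
    (S₀ : HS Ω) (hF₀ : S₀.F = bF d (p.map ι) (q.map ι)) (hd₀ : S₀.d = d) (M : ℝ)
    (hMp : ∀ i, p.coeff i ≠ 0 → -M ≤ ord (p.coeff i))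
    (hMq : ∀ i, q.coeff i ≠ 0 → -M ≤ ord (q.coeff i)) :
    ∃ S', Kr ι S₀ S' ∧ S'.gs = 1 ∧ S'.Res ≤ S₀.Res + 2 * d * M := by
  obtain ⟨B, hB⟩ := exists_famK ι hnat
  have hrat : ∀ X : K × K, ∃ Y : K × K, S₀.F (vm ι X) = vm ι Y := by
    intro X
    refine ⟨(hev d p X, hev d q X), ?_⟩
    rw [hF₀]
    unfold bF
    rw [hev_map, hev_map]
    rfl
  have hw : wd ((1, 0) : K × K) (0, 1) = 1 := by unfold wd; simp
  have hw' : wd (vm ι (1, 0)) (vm ι (0, 1)) ≠ 0 := by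
    rw [vm_wd, hw, map_one]
    exact one_ne_zero
  have e1 : ∀ Z : Ω × Ω, gm (vm ι (1, 0)) (vm ι (0, 1)) Z = Z := by
    intro Z
    unfold gm vm
    ext <;> simp
  have e2 : ∀ Z : Ω × Ω, gi (vm ι (1, 0)) (vm ι (0, 1)) Z = Z := by
    intro Z
    have := gi_gm hw' Z
    rwa [e1] at this
  have hK₀ : Kr ι S₀ S₀ := by
    refine ⟨(1, 0), (0, 1), 1, by rw [hw]; exact one_ne_zero, one_ne_zero, rfl, ?_, ?_⟩
    · intro X
      rw [e1, e2, map_one, one_smul]
    · rw [hw, map_one, norm_one, Real.log_one]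
      ring
  obtain ⟨s₂, hs₂, hg⟩ := exists_scale hnat hrat hK₀ hw'
  have hK₁ := Kr_conj hK₀ hw' s₂ hs₂
  refine ⟨_, hK₁, hg, ?_⟩
  change S₀.Res - (S₀.d * ((S₀.d : ℝ) - 1)) * Real.log ‖wd (vm ι (1, 0)) (vm ι (0, 1))‖ -
    2 * S₀.d * Real.log ‖ι s₂‖ ≤ _
  rw [vm_wd, hw, map_one, norm_one, Real.log_one, hd₀]
  have hlow : -M ≤ Real.log ‖ι s₂‖ := by
    obtain ⟨E, hE⟩ := HS.gs_attained
      (S := S₀.conj (vm ι (1, 0)) (vm ι (0, 1)) hw' (ι s₂) hs₂) B
    obtain ⟨i, hi⟩ := Infinite.exists_notMem_finset E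
    have h1 := hE i hi
    rw [hg] at h1
    change ‖ι s₂ • gi (vm ι (1, 0)) (vm ι (0, 1)) (S₀.F (gm (vm ι (1, 0)) (vm ι (0, 1)) (B.b i)))‖
      = 1 at h1
    rw [e1, e2, norm_smul, hF₀] at h1
    have h2 : ‖bF d (p.map ι) (q.map ι) (B.b i)‖ ≤ Real.exp M := by
      unfold bF
      rw [Prod.norm_def]
      exact max_le (hev_le ι ord hι d p M hMp _ (B.unit i)) (hev_le ι ord hι d q M hMq _ (B.unit i))
    have hpos : 0 < ‖ι s₂‖ := norm_pos_iff.mpr hs₂
    have h3 : 1 ≤ ‖ι s₂‖ * Real.exp M := by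
      rw [← h1]
      exact mul_le_mul_of_nonneg_left h2 hpos.le
    have h4 := Real.log_le_log one_pos h3
    rw [Real.log_one, Real.log_mul hpos.ne' (Real.exp_pos M).ne', Real.log_exp] at h4
    linarith
  have hd0 : (0 : ℝ) ≤ d := Nat.cast_nonneg d
  nlinarith [mul_nonneg hd0 (by linarith : (0 : ℝ) ≤ Real.log ‖ι s₂‖ + M)]

theorem t_LDX (hG : S_GRN2.{u}) : S_LDX.{u, v, w} := by
  intro k K _ _ _ _ _ Q v d hd p q hp hq hco P hP a ha ρ hρ
  have hres := res_ne d p q hp hq (by omega) hco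
  by_cases hπ : ∃ π : K, π ≠ 0 ∧ Q.ord v π ≠ 0
  · obtain ⟨π, hπ0, hπ1⟩ := id hπ
    obtain ⟨Ω, i1, i2, i3, ι, hι⟩ := exists_ext Q v π hπ0 hπ1
    have hlog : ∀ x : K, x ≠ 0 → -Real.log ‖ι x‖ = Q.ord v x := by
      intro x hx
      rw [hι x hx, Real.log_exp, neg_neg]
    have hnatK : ∀ n : ℕ, n ≠ 0 → ((n : K) ≠ 0 ∧ Q.ord v (n : K) = 0) := by
      intro n hn
      have h1 : (n : K) = algebraMap k K (n : k) := by simp
      have h2 : (n : k) ≠ 0 := Nat.cast_ne_zero.mpr hn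
      constructor
      · rw [h1]
        exact (_root_.map_ne_zero _).mpr h2
      · rw [h1]
        exact Q.ord_alg v _ h2
    have hnat : ∀ n : ℕ, n ≠ 0 → ‖(n : Ω)‖ = 1 := by
      intro n hn
      obtain ⟨h1, h2⟩ := hnatK n hn
      have h3 := hι (n : K) h1
      rw [h2, map_natCast] at h3
      rw [h3]
      simp
    have hinj := ι.injective
    have hcoΩ : IsCoprime (p.map ι) (q.map ι) := by
      obtain ⟨u, w, h⟩ := hco
      refine ⟨u.map ι, w.map ι, ?_⟩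
      rw [← Polynomial.map_mul, ← Polynomial.map_mul, ← Polynomial.map_add, h, Polynomial.map_one]
    obtain ⟨S₀, hF₀, hd₀, hR₀⟩ := exists_base d (p.map ι) (q.map ι)
      ((Polynomial.natDegree_map_le).trans hp)
      (by rw [Polynomial.natDegree_map_eq_of_injective hinj, hq]) (by omega) hcoΩ
    rw [resultant_map_map] at hR₀
    have hRes₀ : S₀.Res = Q.ord v (resultant q p d d) := by
      have h1 := congrArg Real.log hR₀
      rw [Real.log_exp] at h1
      have := hlog _ hres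
      linarith
    obtain ⟨L, U, V, s, hUV, hs, hcj, hmn⟩ := local_all2 Q v ι hι hnat d hd p q hp hq S₀ hF₀ hd₀
      hRes₀ P hP a ha ρ hρ
    have hUVΩ : wd (vm ι U) (vm ι V) ≠ 0 := by
      rw [vm_wd]
      exact (map_ne_zero ι).mpr hUV
    have hsΩ : ι s ≠ 0 := (map_ne_zero ι).mpr hs
    obtain ⟨hgs, hRes⟩ := hcj hUVΩ hsΩ
    obtain ⟨X, hX⟩ := pair2 hG ι (Q.ord v) hι hnat d hd p q hp hq P hP a ha S₀ hF₀ hd₀ hRes₀
      (vm ι U) (vm ι V) hUVΩ (ι s) hsΩ _ rfl hgs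
    refine ⟨L, ?_, fun _ => ⟨Ω, i1, i3, i2, ι, S₀, vm ι U, vm ι V, hUVΩ, ι s, hsΩ, X, hι, hnat, hF₀,
      hd₀, hRes₀, hgs, hRes, ?_⟩⟩
    · intro M _ hMp hMq
      obtain ⟨S', h1, h2, h3⟩ := exists_small ι (Q.ord v) hι hnat d p q S₀ hF₀ hd₀ M hMp hMq
      have h4 := hmn S' h1 h2
      rw [hRes₀] at h3
      linarith
    · intro z hz z' hz' hne
      obtain ⟨h1, h2⟩ := hX z hz z' hz' hne
      refine ⟨h1, h2.trans ?_⟩
      unfold GG
      rw [hρ]
  · have hπ' : ∀ π : K, π ≠ 0 → Q.ord v π = 0 := by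
      intro π h0
      by_contra h1
      exact hπ ⟨π, h0, h1⟩
    have hρ0 : ρ = 0 := by
      rw [hρ, hπ' _ hres]
      simp
    have ha0 : ∀ z ∈ P, a z = 0 := by
      apply stable_zero d hd P (fun z => p.eval z / q.eval z) (fun z hz => (hP z hz).2) a
      intro z hz
      rw [ha z hz, hπ' _ (hP z hz).1]
      simp
    have hinf : Infinite K := by
      haveI : CharZero K := charZero_of_injective_algebraMap (algebraMap k K).injective
      infer_instance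
    obtain ⟨L, hL⟩ : ∃ L : LD Q v d P a ρ, L.R = 0 := by
      obtain ⟨μ, hμ⟩ := Infinite.exists_notMem_finset P
      have hzμ : ∀ z ∈ P, z ≠ μ := fun z hz h => hμ (h ▸ hz)
      refine ⟨⟨μ, 1, 0, 0, 0, one_ne_zero, fun z hz => ⟨hzμ z hz, fun h => (hπ' _ h).ge⟩, ?_, ?_, ?_,
        ?_⟩, rfl⟩
      · rw [hρ0, PlaceData.ord_one]
        simp
      · intro z hz
        unfold Az
        rw [ha0 z hz, hπ' _ (div_ne_zero one_ne_zero (sub_ne_zero.mpr (hzμ z hz)))]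
        simp
      · intro n _
        have h1 : ∑ z ∈ P, ∑ z' ∈ P, (if z = z' then 0 else GG Q v a ρ z z') = 0 := by
          apply Finset.sum_eq_zero
          intro z hz
          apply Finset.sum_eq_zero
          intro z' hz'
          split_ifs with h
          · rfl
          · unfold GG
            rw [hπ' _ (sub_ne_zero.mpr h), ha0 z hz, ha0 z' hz', hρ0]
            simp
        rw [h1]
        simp
      · intro h
        omega
    refine ⟨L, ?_, fun h => absurd h hπ⟩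
    intro M hM _ _
    rw [hπ' _ hres, hL]
    have : (0 : ℝ) ≤ 2 * d * M := by positivity
    simpa using this

end Pool.Agent.Y302.CH.LDX
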