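import Pool.Agent.Y862.CH.Stm

/-!
# Project CH: prolongation and restriction of chains
-/

set_option autoImplicit false

namespace Pool.Agent.Y302.CH

open Real CH134
open Pool.Agent.Y862.CH

theorem ext : S_EXT := by
  intro n l q hl hq hs
  rcases n with _ | m
  · refine ⟨Function.update l 0 1, Function.update q 1 (q 0 + 1), ?_, ?_, ?_, ?_, ?_⟩
    · intro i hi
      have : i = 0 := by omega
      subst this; simp
    · intro i hi
      have : i = 0 := by omega
      subst this
      simp [dist_eq_norm]
    · intro i j hij hj
      omega
    · intro i hi; omega
    · intro i hi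
      have : i = 0 := by omega
      subst this; simp
  · have hlm : 0 < l m := hl m (by omega)
    have hdm : dist (q m) (q (m + 1)) = l m := hq m (by omega)
    set e : ℂ := q (m + 1) - q m with he
    have hne : ‖e‖ = l m := by
      rw [he, ← dist_eq_norm, dist_comm]; exact hdm
    have he0 : e ≠ 0 := by
      intro h; rw [h, norm_zero] at hne; linarith
    -- the end is away from the other links
    set C : Set ℂ := ⋃ j ∈ Finset.range m, segment ℝ (q j) (q (j + 1)) with hC
    have hCc : IsClosed C := by
      apply IsCompact.isClosed
      apply (Finset.range m).isCompact_biUnion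
      intro j _
      rw [segment_eq_image_lineMap]
      exact isCompact_Icc.image AffineMap.lineMap_continuous
    have hCn : q (m + 1) ∉ C := by
      intro h
      simp only [hC, Set.mem_iUnion, Finset.mem_range] at h
      obtain ⟨j, hj, hz⟩ := h
      have := (hs j m hj (by omega) (q (m + 1)) hz (right_mem_segment ℝ _ _)).2
      apply he0
      rw [he, this, sub_self]
    obtain ⟨ε, hε, hball⟩ := Metric.isOpen_iff.1 hCc.isOpen_compl (q (m + 1)) hCn
    set δ : ℝ := ε / (2 * l m) with hδ
    have hδ0 : 0 < δ := by positivity
    have hδe : δ * ‖e‖ < ε := by
      rw [hne, hδ]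
      field_simp
      linarith
    refine ⟨Function.update l (m + 1) (δ * l m), Function.update q (m + 2) (q (m + 1) + δ * e),
      ?_, ?_, ?_, ?_, ?_⟩
    · intro i hi
      by_cases h : i = m + 1
      · subst h; rw [Function.update_self]; positivity
      · rw [Function.update_of_ne h]; exact hl i (by omega)
    · intro i hi
      by_cases h : i = m + 1
      · subst h
        rw [Function.update_of_ne (by omega), Function.update_self, Function.update_self,
          dist_eq_norm]
        have : q (m + 1) - (q (m + 1) + δ * e) = -((δ : ℂ) * e) := by ring
        rw [this, norm_neg, norm_mul, Complex.norm_real, Real.norm_of_nonneg hδ0.le, hne]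
      · rw [Function.update_of_ne (by omega), Function.update_of_ne (by omega),
          Function.update_of_ne h]
        exact hq i (by omega)
    · intro i j hij hj z hz1 hz2
      by_cases hjm : j = m + 1
      · subst hjm
        rw [Function.update_of_ne (by omega), Function.update_self] at hz2
        rw [Function.update_of_ne (by omega), Function.update_of_ne (by omega)] at hz1
        obtain ⟨a, b, ha, hb, hab, hz⟩ := hz2
        have hz' : z = q (m + 1) + (b * δ : ℝ) * e := by
          rw [← hz]
          have : (a : ℂ) = 1 - b := by
            have : a = 1 - b := by linarith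
            rw [this]; push_cast; ring
          simp only [Complex.real_smul]
          rw [this]; push_cast; ring
        by_cases him : i = m
        · subst him
          refine ⟨rfl, ?_⟩
          rw [Function.update_of_ne (by omega)]
          obtain ⟨a', b', ha', hb', hab', hz3⟩ := hz1
          have hz4 : z = q (i + 1) - (a' : ℝ) * e := by
            rw [← hz3, he]
            have : (b' : ℂ) = 1 - a' := by
              have : b' = 1 - a' := by linarith
              rw [this]; push_cast; ring
            simp only [Complex.real_smul]
            rw [this]; ring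
          have h5 : ((b * δ + a' : ℝ) : ℂ) * e = 0 := by
            have : q (i + 1) + (b * δ : ℝ) * e = q (i + 1) - (a' : ℝ) * e := by
              rw [← hz', ← hz4]
            push_cast at this ⊢
            linear_combination this
          rcases mul_eq_zero.1 h5 with h6 | h6
          · have h7 : b * δ + a' = 0 := by exact_mod_cast h6
            have h8 : 0 ≤ b * δ := by positivity
            have h9 : a' = 0 := by linarith
            rw [hz4, h9]; simp
          · exact absurd h6 he0
        · exfalso
          have hzC : z ∈ C := by
            simp only [hC, Set.mem_iUnion, Finset.mem_range]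
            exact ⟨i, by omega, hz1⟩
          have hzb : z ∈ Metric.ball (q (m + 1)) ε := by
            rw [Metric.mem_ball, hz', dist_eq_norm]
            have : q (m + 1) + (b * δ : ℝ) * e - q (m + 1) = ((b * δ : ℝ) : ℂ) * e := by ring
            rw [this, norm_mul, Complex.norm_real, Real.norm_of_nonneg (by positivity)]
            have hb1 : b ≤ 1 := by linarith
            have h10 : 0 ≤ δ * ‖e‖ := by positivity
            nlinarith
          exact hball hzb hzC
      · rw [Function.update_of_ne (by omega), Function.update_of_ne (by omega)] at hz1 hz2
        rw [Function.update_of_ne (by omega)]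
        exact hs i j hij (by omega) z hz1 hz2
    · intro i hi
      rw [Function.update_of_ne (by omega)]
    · intro i hi
      rw [Function.update_of_ne (by omega)]

theorem res_motion {n : ℕ} {l l' : ℕ → ℝ} {T : ℝ} {p : ℝ → ℕ → ℂ} (hl : ∀ i < n, l' i = l i)
    (h : IsMotion (n + 1) l' T p) : IsMotion n l T p := by
  refine ⟨fun i hi => h.1 i (by omega), fun t ht => ⟨fun i hi => ?_, fun i j hij hj => ?_⟩⟩
  · rw [← hl i hi]; exact (h.2 t ht).1 i (by omega)
  · exact (h.2 t ht).2 i j hij (by omega)

theorem res : S_RES := by
  constructor
  · rintro n l l' q q' k hl hq ⟨T, p, hT, hm, h0, ⟨τ, t0, tk, tm, hp⟩, hst⟩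
    refine ⟨T, p, hT, res_motion hl hm, fun i hi => ?_, ⟨τ, t0, tk, tm, fun j hj i hi => ?_⟩,
      fun i hi => ?_⟩
    · rw [← hq i hi]; exact h0 i (by omega)
    · exact hp j hj i (by omega)
    · exact hst i (by omega)
  · rintro n d l l' q q' k hl hq ⟨T, p, hT, hm, h0, ⟨τ, t0, tk, tm, hp⟩, hst⟩
    refine ⟨T, p, hT, res_motion hl hm, fun i hi => ?_, ⟨τ, t0, tk, tm, fun j hj i hi => ?_⟩,
      fun i hi => ?_⟩
    · rw [← hq i hi]; exact h0 i (by omega)
    · exact hp j hj i (by omega)
    · exact hst i (by omega)

end Pool.Agent.Y302.CH
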