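import Pool.Agent.Y862.CH.Stm

/-!
# Project CH: compactness for polynomials of bounded degree
-/

set_option autoImplicit false

namespace Pool.Agent.Y302.CH

open Real Filter Topology Polynomial
open Pool.Agent.Y862.CH

theorem range_of_tendsto {A : ℝ[X]} (hA : Tendsto (fun x => A.eval x) atTop atTop) (y : ℝ)
    (hy : A.eval 0 ≤ y) : ∃ t, A.eval t = y := by
  obtain ⟨b, hb⟩ := (hA.eventually (eventually_ge_atTop y)).exists
  exact mem_range_of_exists_le_of_exists_ge A.continuous ⟨0, hy⟩ ⟨b, hb⟩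

theorem zero_of_many {A P : ℝ[X]} (hA : Tendsto (fun x => A.eval x) atTop atTop) (c : ℝ)
    (hP : ∀ (t : ℝ) (k : ℕ), A.eval t = c + k * (2 * π) → P.eval t = 0) : P = 0 := by
  obtain ⟨k0, hk0⟩ := exists_nat_ge ((A.eval 0 - c) / (2 * π))
  have h2 : ∀ k : ℕ, ∃ t, A.eval t = c + ((k0 + k : ℕ) : ℝ) * (2 * π) := by
    intro k
    apply range_of_tendsto hA
    rw [div_le_iff₀ (by positivity)] at hk0
    push_cast
    have : (0 : ℝ) ≤ k * (2 * π) := by positivity
    linarith
  choose t ht using h2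
  have hinj : Function.Injective t := by
    intro k l hkl
    have := ht k
    rw [hkl, ht l] at this
    have h3 : ((k0 + l : ℕ) : ℝ) * (2 * π) = ((k0 + k : ℕ) : ℝ) * (2 * π) := by linarith
    have h4 := mul_right_cancel₀ (by positivity : (2 * π : ℝ) ≠ 0) h3
    have h5 : k0 + l = k0 + k := by exact_mod_cast h4
    omega
  apply Polynomial.eq_zero_of_infinite_isRoot
  exact Set.infinite_of_injective_forall_mem hinj fun k => hP (t k) (k0 + k) (ht k)

theorem exact_pos {A X Y : ℝ[X]} (hA : Tendsto (fun x => A.eval x) atTop atTop)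
    (h : ∀ t : ℝ, X.eval t * cos (A.eval t) - sin (A.eval t) + Y.eval t = 0) : False := by
  have h1 : X + Y = 0 := by
    apply zero_of_many hA 0
    intro t k ht
    have := h t
    rw [ht, zero_add, Real.cos_nat_mul_two_pi] at this
    have h2 : sin ((k : ℝ) * (2 * π)) = 0 := by
      have := Real.sin_add_nat_mul_two_pi 0 k
      rw [zero_add, Real.sin_zero] at this
      exact this
    rw [h2] at this
    rw [eval_add]; linarith
  have h2 : Y - X = 0 := by
    apply zero_of_many hA π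
    intro t k ht
    have := h t
    rw [ht, Real.cos_add_nat_mul_two_pi, Real.sin_add_nat_mul_two_pi, Real.cos_pi,
      Real.sin_pi] at this
    rw [eval_sub]; linarith
  have h3 : Y = 0 := by
    have : (2 : ℝ[X]) * Y = 0 := by
      calc (2 : ℝ[X]) * Y = (X + Y) + (Y - X) := by ring
        _ = 0 := by rw [h1, h2, add_zero]
    rcases mul_eq_zero.1 this with h | h
    · exact absurd h two_ne_zero
    · exact h
  have h4 : X = 0 := by
    rw [h3, add_zero] at h1; exact h1
  obtain ⟨k0, hk0⟩ := exists_nat_ge ((A.eval 0 - π / 2) / (2 * π))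
  obtain ⟨t, ht⟩ := range_of_tendsto hA (π / 2 + k0 * (2 * π)) (by
    rw [div_le_iff₀ (by positivity)] at hk0
    linarith)
  have := h t
  rw [h3, h4, ht, Real.sin_add_nat_mul_two_pi, Real.sin_pi_div_two] at this
  simp at this

theorem exact_all {A X Y : ℝ[X]} (hA : 0 < A.degree)
    (h : ∀ t : ℝ, X.eval t * cos (A.eval t) - sin (A.eval t) + Y.eval t = 0) : False := by
  rcases le_total 0 A.leadingCoeff with hl | hl
  · exact exact_pos (Polynomial.tendsto_atTop_of_leadingCoeff_nonneg A hA hl) h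
  · have h1 : Tendsto (fun x => (-A).eval x) atTop atTop := by
      apply Polynomial.tendsto_atTop_of_leadingCoeff_nonneg
      · rwa [degree_neg]
      · rw [leadingCoeff_neg]; linarith
    refine exact_pos (X := -X) (Y := -Y) h1 fun t => ?_
    rw [eval_neg, eval_neg, eval_neg, Real.cos_neg, Real.sin_neg]
    linarith [h t]

/-- the exact lemma -/
theorem exact_lem {A X Y : ℝ[X]}
    (h : ∀ t ∈ Set.Icc (0 : ℝ) 1, X.eval t * cos (A.eval t) - sin (A.eval t) + Y.eval t = 0) :
    A.eval 1 = A.eval 0 := by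
  by_contra hne
  have hdeg : 0 < A.degree := by
    by_contra hcon
    push Not at hcon
    rw [Polynomial.eq_C_of_degree_le_zero hcon] at hne
    simp at hne
  apply exact_all hdeg (X := X) (Y := Y)
  have han : ∀ P : ℝ[X], AnalyticOnNhd ℝ (fun t => P.eval t) Set.univ := fun P => by
    have := AnalyticOnNhd.aeval_polynomial (𝕜 := ℝ) (A := ℝ) (f := fun t : ℝ => t)
      (s := Set.univ) analyticOnNhd_id P
    simpa [Polynomial.coe_aeval_eq_eval] using this
  have hf : AnalyticOnNhd ℝ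
      (fun t => X.eval t * cos (A.eval t) - sin (A.eval t) + Y.eval t) Set.univ := by
    intro t _
    have a1 := han A t trivial
    have a2 := han X t trivial
    have a3 := han Y t trivial
    have b1 : AnalyticAt ℝ (fun t => cos (A.eval t)) t := analyticAt_cos.comp a1
    have b2 : AnalyticAt ℝ (fun t => sin (A.eval t)) t := analyticAt_sin.comp a1
    exact ((a2.mul b1).sub b2).add a3
  have hev : (fun t => X.eval t * cos (A.eval t) - sin (A.eval t) + Y.eval t) =ᶠ[𝓝 (1 / 2 : ℝ)]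
      fun _ => 0 := by
    have : Set.Icc (0 : ℝ) 1 ∈ 𝓝 (1 / 2 : ℝ) := Icc_mem_nhds (by norm_num) (by norm_num)
    filter_upwards [this] with t ht using h t ht
  have := hf.eqOn_zero_of_preconnected_of_eventuallyEq_zero isPreconnected_univ
    (Set.mem_univ (1 / 2 : ℝ)) hev
  intro t
  exact this (Set.mem_univ t)

/-- polynomials by coefficients -/
noncomputable def pol {d : ℕ} (v : Fin (d + 1) → ℝ) : ℝ[X] := ∑ i, C (v i) * X ^ (i : ℕ)

theorem eval_pol {d : ℕ} (v : Fin (d + 1) → ℝ) (s : ℝ) :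
    (pol v).eval s = ∑ i, v i * s ^ (i : ℕ) := by
  simp [pol, eval_finsetSum]

theorem pol_coeff {d : ℕ} {P : ℝ[X]} (hP : P.natDegree ≤ d) (s : ℝ) :
    P.eval s = ∑ i : Fin (d + 1), P.coeff i * s ^ (i : ℕ) := by
  rw [Polynomial.eval_eq_sum_range' (Nat.lt_succ_of_le hP), Finset.sum_range]

/-- the evaluation map -/
noncomputable def evl (d : ℕ) : (Fin (d + 1) → ℝ) →ₗ[ℝ] C(Set.Icc (0 : ℝ) 1, ℝ) where
  toFun v := ⟨fun s => ∑ i, v i * (s : ℝ) ^ (i : ℕ), by fun_prop⟩
  map_add' v w := by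
    ext s
    simp [add_mul, Finset.sum_add_distrib]
  map_smul' c v := by
    ext s
    simp [mul_assoc, Finset.mul_sum]

theorem evl_inj (d : ℕ) : LinearMap.ker (evl d) = ⊥ := by
  rw [LinearMap.ker_eq_bot']
  intro v hv
  have h0 : pol v = 0 := by
    apply Polynomial.eq_zero_of_infinite_isRoot
    refine (Set.Icc_infinite (show (0 : ℝ) < 1 by norm_num)).mono ?_
    intro s hs
    have := congrArg (fun f : C(Set.Icc (0 : ℝ) 1, ℝ) => f ⟨s, hs⟩) hv
    show (pol v).eval s = 0
    rw [eval_pol]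
    exact this
  funext i
  have := congrArg (fun P : ℝ[X] => P.coeff i) h0
  simp only [pol, finsetSum_coeff, coeff_C_mul, coeff_X_pow, coeff_zero] at this
  rw [Finset.sum_eq_single i] at this
  · simpa using this
  · intro j _ hji
    rw [if_neg (fun h => hji (Fin.ext h.symm)), mul_zero]
  · intro h; exact absurd (Finset.mem_univ i) h

theorem coeff_bound (d : ℕ) : ∃ K : ℝ, 0 ≤ K ∧ ∀ (v : Fin (d + 1) → ℝ) (M : ℝ), 0 ≤ M →
    (∀ s ∈ Set.Icc (0 : ℝ) 1, |∑ i, v i * s ^ (i : ℕ)| ≤ M) → ‖v‖ ≤ K * M := by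
  obtain ⟨K, hK, hL⟩ := (evl d).exists_antilipschitzWith (evl_inj d)
  refine ⟨K, K.2, fun v M hM hv => ?_⟩
  have h1 : ‖evl d v‖ ≤ M := by
    rw [ContinuousMap.norm_le _ hM]
    intro s
    exact hv s s.2
  have h2 := hL.le_mul_dist v 0
  rw [map_zero, dist_zero_right, dist_zero_right] at h2
  exact h2.trans (mul_le_mul_of_nonneg_left h1 K.2)

theorem poly : S_POLY := by
  intro d Δ hΔ
  by_contra hcon
  push Not at hcon
  have hcon' := fun n : ℕ => hcon (1 / ((n : ℝ) + 1)) (by positivity)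
  choose A X Y hA hX hY hb hΔ' hs using hcon'
  obtain ⟨K, hK0, hK⟩ := coeff_bound d
  set a : ℕ → (Fin (d + 1) → ℝ) := fun n i => (A n).coeff i with ha
  set x : ℕ → (Fin (d + 1) → ℝ) := fun n i => (X n).coeff i with hx
  set y : ℕ → (Fin (d + 1) → ℝ) := fun n i => (Y n).coeff i with hy
  have eA : ∀ n s, (A n).eval s = ∑ i, a n i * s ^ (i : ℕ) := fun n s => pol_coeff (hA n) s
  have eX : ∀ n s, (X n).eval s = ∑ i, x n i * s ^ (i : ℕ) := fun n s => pol_coeff (hX n) s
  have eY : ∀ n s, (Y n).eval s = ∑ i, y n i * s ^ (i : ℕ) := fun n s => pol_coeff (hY n) s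
  have ba : ∀ n, ‖a n‖ ≤ K * 21 := fun n => hK (a n) 21 (by norm_num) fun s hs => by
    rw [← eA n s]; exact (hb n s hs).1.trans (by norm_num)
  have bx : ∀ n, ‖x n‖ ≤ K * 21 := fun n => hK (x n) 21 (by norm_num) fun s hs => by
    rw [← eX n s]; exact (hb n s hs).2.1
  have by' : ∀ n, ‖y n‖ ≤ K * 21 := fun n => hK (y n) 21 (by norm_num) fun s hs => by
    rw [← eY n s]; exact (hb n s hs).2.2
  have hcomp : IsCompact (Metric.closedBall (0 : (Fin (d + 1) → ℝ) × (Fin (d + 1) → ℝ) ×
      (Fin (d + 1) → ℝ)) (K * 21)) := isCompact_closedBall _ _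
  obtain ⟨⟨a', x', y'⟩, -, φ, hφ, hlim⟩ := hcomp.tendsto_subseq
    (x := fun n => (a n, x n, y n)) fun n => by
      rw [mem_closedBall_zero_iff, Prod.norm_def, Prod.norm_def]
      exact max_le (ba n) (max_le (bx n) (by' n))
  have la : Tendsto (fun n => a (φ n)) atTop (𝓝 a') :=
    (continuous_fst.tendsto _).comp hlim
  have lx : Tendsto (fun n => x (φ n)) atTop (𝓝 x') :=
    ((continuous_fst.comp continuous_snd).tendsto _).comp hlim
  have ly : Tendsto (fun n => y (φ n)) atTop (𝓝 y') :=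
    ((continuous_snd.comp continuous_snd).tendsto _).comp hlim
  have hev : ∀ (u : ℕ → Fin (d + 1) → ℝ) (u' : Fin (d + 1) → ℝ), Tendsto u atTop (𝓝 u') →
      ∀ s : ℝ, Tendsto (fun n => ∑ i, u n i * s ^ (i : ℕ)) atTop
        (𝓝 ((pol u').eval s)) := by
    intro u u' hu s
    rw [eval_pol]
    refine tendsto_finsetSum _ fun i _ => ?_
    exact ((tendsto_pi_nhds.1 hu) i).mul_const _
  have lA : ∀ s, Tendsto (fun n => (A (φ n)).eval s) atTop (𝓝 ((pol a').eval s)) := fun s => by
    simp_rw [eA]; exact hev _ _ la s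
  have lX : ∀ s, Tendsto (fun n => (X (φ n)).eval s) atTop (𝓝 ((pol x').eval s)) := fun s => by
    simp_rw [eX]; exact hev _ _ lx s
  have lY : ∀ s, Tendsto (fun n => (Y (φ n)).eval s) atTop (𝓝 ((pol y').eval s)) := fun s => by
    simp_rw [eY]; exact hev _ _ ly s
  have hzero : ∀ t ∈ Set.Icc (0 : ℝ) 1,
      (pol x').eval t * cos ((pol a').eval t) - sin ((pol a').eval t) + (pol y').eval t = 0 := by
    intro t ht
    have h1 : Tendsto (fun n => |(X (φ n)).eval t * cos ((A (φ n)).eval t) -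
        sin ((A (φ n)).eval t) + (Y (φ n)).eval t|) atTop
        (𝓝 |(pol x').eval t * cos ((pol a').eval t) - sin ((pol a').eval t) +
          (pol y').eval t|) :=
      ((((lX t).mul ((Real.continuous_cos.tendsto _).comp (lA t))).sub
        ((Real.continuous_sin.tendsto _).comp (lA t))).add (lY t)).abs
    have h2 : Tendsto (fun n : ℕ => 1 / (((φ n : ℕ) : ℝ) + 1)) atTop (𝓝 0) :=
      tendsto_one_div_add_atTop_nhds_zero_nat.comp hφ.tendsto_atTop
    have h3 := le_of_tendsto_of_tendsto' h1 h2 fun n => hs (φ n) t ht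
    exact abs_eq_zero.1 (le_antisymm h3 (abs_nonneg _))
  have h1 := exact_lem hzero
  have h2 : Δ ≤ (pol a').eval 1 - (pol a').eval 0 :=
    ge_of_tendsto' ((lA 1).sub (lA 0)) fun n => hΔ' (φ n)
  rw [h1] at h2
  linarith

end Pool.Agent.Y302.CH
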