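import Pool.Agent.Y862.CH.Stm

/-!
# Project CH: concatenation of motions, rotation of a part of the chain
-/

set_option autoImplicit false

namespace Pool.Agent.Y302.CH

open Real CH134
open Pool.Agent.Y862.CH

theorem jointAngle_congr {q q' : ℕ → ℂ} {i : ℕ} {t : ℝ} (h0 : q i = q' i)
    (h1 : q (i + 1) = q' (i + 1)) (h2 : q (i + 2) = q' (i + 2)) (h : JointAngle q i t) :
    JointAngle q' i t := by
  unfold JointAngle at h ⊢
  rwa [← h0, ← h1, ← h2]

theorem cons : S_CONS := by
  rintro n l q q' g k hc hls h0 h1 hang ⟨T, p, hT, ⟨pc, pls⟩, p0, ⟨τ, t0, tk, tm, hp⟩, hst⟩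
  set P : ℝ → ℕ → ℂ := fun t i => if t ≤ 1 then g t i else p (t - 1) i with hP
  have P1 : ∀ t, t ≤ 1 → P t = g t := by
    intro t ht; funext i; simp only [hP]; rw [if_pos ht]
  have P2 : ∀ t, 1 < t → P t = p (t - 1) := by
    intro t ht; funext i; simp only [hP]; rw [if_neg (not_le.2 ht)]
  have P3 : ∀ t, 1 ≤ t → ∀ i ≤ n, P t i = p (t - 1) i := by
    intro t ht i hi
    rcases ht.eq_or_lt with h | h
    · rw [← h, P1 1 le_rfl, h1 i hi, ← p0 i hi]
      congr 1; ring
    · rw [P2 t h]
  have hτ0 : ∀ j ≤ k, 0 ≤ τ j := by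
    intro j
    induction j with
    | zero => intro _; rw [t0]
    | succ j ih => intro hj; exact (ih (by omega)).trans (tm j (by omega))
  refine ⟨T + 1, P, by linarith, ⟨fun i hi => ?_, fun t ht => ?_⟩, fun i hi => ?_,
    ⟨fun j => match j with | 0 => 0 | j + 1 => τ j + 1, rfl, ?_, ?_, ?_⟩, ?_⟩
  · -- continuity
    have e : Set.Icc (0 : ℝ) (T + 1) = Set.Icc 0 1 ∪ Set.Icc 1 (T + 1) :=
      (Set.Icc_union_Icc_eq_Icc zero_le_one (by linarith)).symm
    rw [e]
    refine ContinuousOn.union_of_isClosed ?_ ?_ isClosed_Icc isClosed_Icc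
    · refine (hc i hi).congr fun t ht => ?_
      simp only [P1 t ht.2]
    · have h2 : ContinuousOn (fun t => p (t - 1) i) (Set.Icc 1 (T + 1)) := by
        refine (pc i hi).comp (f := fun t => t - 1) (by fun_prop) fun t ht => ?_
        exact ⟨by linarith [ht.1], by linarith [ht.2]⟩
      refine h2.congr fun t ht => ?_
      exact P3 t ht.1 i hi
  · rcases le_or_gt t 1 with h | h
    · rw [P1 t h]; exact hls t ⟨ht.1, h⟩
    · rw [P2 t h]; exact pls (t - 1) ⟨by linarith, by linarith [ht.2]⟩
  · rw [P1 0 zero_le_one]; exact h0 i hi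
  · show τ k + 1 = T + 1
    rw [tk]
  · intro j hj
    rcases j with _ | j
    · show (0 : ℝ) ≤ τ 0 + 1
      rw [t0]; norm_num
    · show τ j + 1 ≤ τ (j + 1) + 1
      linarith [tm j (by omega)]
  · intro j hj i hi
    rcases j with _ | j
    · obtain ⟨α, β, hab⟩ := hang i hi
      refine ⟨α, β, fun t ht => ?_⟩
      have ht' : t ∈ Set.Icc (0 : ℝ) 1 := by
        have h2 : t ≤ τ 0 + 1 := ht.2
        rw [t0] at h2
        exact ⟨ht.1, by linarith⟩
      rw [P1 t ht'.2]
      exact hab t ht'
    · obtain ⟨α, β, hab⟩ := hp j (by omega) i hi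
      refine ⟨α - β, β, fun t ht => ?_⟩
      have hta : τ j + 1 ≤ t := ht.1
      have htb : t ≤ τ (j + 1) + 1 := ht.2
      have h2 := hab (t - 1) ⟨by linarith, by linarith⟩
      have h3 : 1 ≤ t := by linarith [hτ0 j (by omega)]
      have h4 : α - β + β * t = α + β * (t - 1) := by ring
      rw [h4]
      exact jointAngle_congr (P3 t h3 i (by omega)).symm (P3 t h3 (i + 1) (by omega)).symm
        (P3 t h3 (i + 2) (by omega)).symm h2
  · intro i hi
    have h3 : (1 : ℝ) ≤ T + 1 := by linarith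
    have h5 : T + 1 - 1 = T := by ring
    have h6 := P3 (T + 1) h3
    rw [h5] at h6
    exact jointAngle_congr (h6 i (by omega)).symm (h6 (i + 1) (by omega)).symm
      (h6 (i + 2) (by omega)).symm (hst i hi)

theorem turn_le {j i : ℕ} (s : ℝ) (q : ℕ → ℂ) (h : i ≤ j) : turn j s q i = q i := by
  unfold turn; rw [if_pos h]

theorem turn_ge {j i : ℕ} (s : ℝ) (q : ℕ → ℂ) (h : j ≤ i) :
    turn j s q i = q j + (q i - q j) * Complex.exp (s * Complex.I) := by
  unfold turn
  split_ifs with h1
  · have : i = j := le_antisymm h1 h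
    subst this; simp
  · rfl

theorem norm_w (s : ℝ) : ‖Complex.exp (s * Complex.I)‖ = 1 := Complex.norm_exp_ofReal_mul_I s

theorem isAngle_mul {u v w : ℂ} {t : ℝ} (hw : ‖w‖ = 1) :
    IsAngle (u * w) (v * w) t ↔ IsAngle u v t := by
  have hw0 : w ≠ 0 := by
    intro h; rw [h, norm_zero] at hw; exact zero_ne_one hw
  unfold IsAngle
  rw [norm_mul, norm_mul, hw, mul_one, mul_one]
  constructor
  · rintro ⟨h1, h2, h3⟩
    refine ⟨h1, h2, ?_⟩
    apply mul_right_cancel₀ hw0
    linear_combination h3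
  · rintro ⟨h1, h2, h3⟩
    refine ⟨h1, h2, ?_⟩
    linear_combination w * h3

theorem turn1 (q : ℕ → ℂ) (j i : ℕ) (s t : ℝ) (h : i + 1 ≠ j) :
    JointAngle (turn j s q) i t ↔ JointAngle q i t := by
  unfold JointAngle
  rcases Nat.lt_or_ge (i + 1) j with h1 | h1
  · rw [turn_le s q (by omega), turn_le s q (by omega), turn_le s q (by omega)]
  · have h2 : j ≤ i := by omega
    rw [turn_ge s q h2, turn_ge s q (show j ≤ i + 1 by omega), turn_ge s q (show j ≤ i + 2 by omega)]
    have e1 : q j + (q i - q j) * Complex.exp (s * Complex.I) -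
        (q j + (q (i + 1) - q j) * Complex.exp (s * Complex.I)) =
        (q i - q (i + 1)) * Complex.exp (s * Complex.I) := by ring
    have e2 : q j + (q (i + 2) - q j) * Complex.exp (s * Complex.I) -
        (q j + (q (i + 1) - q j) * Complex.exp (s * Complex.I)) =
        (q (i + 2) - q (i + 1)) * Complex.exp (s * Complex.I) := by ring
    rw [e1, e2]
    exact isAngle_mul (norm_w s)

theorem turn2 (q : ℕ → ℂ) (i : ℕ) (s t : ℝ) (h : JointAngle q i t) (h1 : 0 < t + s)
    (h2 : t + s < 2 * π) : JointAngle (turn (i + 1) s q) i (t + s) := by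
  unfold JointAngle at h ⊢
  rw [turn_le s q (by omega), turn_le s q le_rfl, turn_ge s q (by omega)]
  have e2 : q (i + 1) + (q (i + 2) - q (i + 1)) * Complex.exp (s * Complex.I) - q (i + 1) =
      (q (i + 2) - q (i + 1)) * Complex.exp (s * Complex.I) := by ring
  rw [e2]
  refine ⟨h1, h2, ?_⟩
  rw [norm_mul, norm_w, mul_one]
  have h3 := h.2.2
  have e3 : Complex.exp (((t + s : ℝ) : ℂ) * Complex.I) =
      Complex.exp (t * Complex.I) * Complex.exp (s * Complex.I) := by
    rw [← Complex.exp_add]; congr 1; push_cast; ring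
  rw [e3]
  linear_combination Complex.exp (s * Complex.I) * h3

theorem turn3 (n : ℕ) (l : ℕ → ℝ) (q : ℕ → ℂ) (j : ℕ) (s : ℝ) (h : HasLengths n l q) :
    HasLengths n l (turn j s q) := by
  intro i hi
  rcases Nat.lt_or_ge i j with h1 | h1
  · rw [turn_le s q h1.le, turn_le s q (by omega)]; exact h i hi
  · rw [turn_ge s q h1, turn_ge s q (by omega), dist_eq_norm]
    have e1 : q j + (q i - q j) * Complex.exp (s * Complex.I) -
        (q j + (q (i + 1) - q j) * Complex.exp (s * Complex.I)) =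
        (q i - q (i + 1)) * Complex.exp (s * Complex.I) := by ring
    rw [e1, norm_mul, norm_w, mul_one, ← dist_eq_norm]
    exact h i hi

theorem turn_facts : S_TURN := by
  refine ⟨fun q j i s t h => turn1 q j i s t h, fun q i s t h h1 h2 => turn2 q i s t h h1 h2,
    fun n l q j s h => turn3 n l q j s h, ?_⟩
  intro n l q j θ φ k hl hang hθ hp1 hp2 hs hst
  have hθ1 := hθ.1
  have hθ2 := hθ.2.1
  refine cons n l q (turn (j + 1) φ q) (fun t => turn (j + 1) (t * φ) q) k ?_ ?_ ?_ ?_ ?_ hst
  · intro i hi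
    apply Continuous.continuousOn
    unfold turn
    by_cases h : i ≤ j + 1
    · simp only [if_pos h]; exact continuous_const
    · simp only [if_neg h]; fun_prop
  · intro t ht
    refine ⟨turn3 n l q (j + 1) (t * φ) hl, hs (t * φ) ?_⟩
    rw [Set.mem_uIcc]
    rcases le_total 0 φ with h | h
    · left
      exact ⟨mul_nonneg ht.1 h, by nlinarith [ht.2]⟩
    · right
      exact ⟨by nlinarith [ht.2], mul_nonpos_of_nonneg_of_nonpos ht.1 h⟩
  · intro i hi
    show turn (j + 1) (0 * φ) q i = q i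
    unfold turn
    split_ifs with h
    · rfl
    · simp
  · intro i hi
    show turn (j + 1) (1 * φ) q i = _
    rw [one_mul]
  · intro i hi
    by_cases h : i = j
    · subst h
      refine ⟨θ, φ, fun t ht => ?_⟩
      have h3 : θ + φ * t = θ + t * φ := by ring
      rw [h3]
      have h4 : θ + t * φ = (1 - t) * θ + t * (θ + φ) := by ring
      have ht0 := ht.1
      have ht1 := ht.2
      apply turn2 q i (t * φ) θ hθ
      · rw [h4]
        rcases ht0.eq_or_lt with h5 | h5
        · rw [← h5]; linarith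
        · have : 0 ≤ (1 - t) * θ := mul_nonneg (by linarith) hθ1.le
          have : 0 < t * (θ + φ) := mul_pos h5 hp1
          linarith
      · rw [h4]
        rcases ht0.eq_or_lt with h5 | h5
        · rw [← h5]; linarith
        · have h6 : (1 - t) * θ ≤ (1 - t) * (2 * π) :=
            mul_le_mul_of_nonneg_left hθ2.le (by linarith)
          have h7 : t * (θ + φ) < t * (2 * π) := mul_lt_mul_of_pos_left hp2 h5
          linarith
    · obtain ⟨t0, ht0⟩ := hang i hi
      refine ⟨t0, 0, fun t _ => ?_⟩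
      rw [zero_mul, add_zero]
      exact (turn1 q (j + 1) i (t * φ) t0 (by omega)).2 ht0

end Pool.Agent.Y302.CH
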